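import Pool.Agent.Helper32.RB.Key
import Pool.Agent.Helper59.RE.Defs

/-!
# The correlations are small outside of a set of small density
-/

namespace Pool.Agent.Helper32.RB

open Finset Filter Topology MeasureTheory
open Pool.Agent.Helper59.RE (e)

theorem log_le_natLog (Λ r : ℕ) (hΛ : 1 ≤ Λ) (hr : (Λ + 1) ^ 2 ≤ r) :
    Real.log r ≤ 2 * Real.log ((Λ : ℝ) + 1) * Nat.log (Λ + 1) r := by
  have hr0 : 0 < r := lt_of_lt_of_le (by positivity) hr
  have hrR : (0 : ℝ) < r := by exact_mod_cast hr0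
  have hL : 0 < Real.log ((Λ : ℝ) + 1) := by
    apply Real.log_pos
    have : (1 : ℝ) ≤ Λ := by exact_mod_cast hΛ
    linarith
  have h1 : 2 ≤ Nat.log (Λ + 1) r := Nat.le_log_of_pow_le (by omega) hr
  have h2 : r < (Λ + 1) ^ (Nat.log (Λ + 1) r + 1) := Nat.lt_pow_succ_log_self (by omega) r
  have h3 : (r : ℝ) ≤ ((Λ : ℝ) + 1) ^ (Nat.log (Λ + 1) r + 1) := by exact_mod_cast h2.le
  have h4 := Real.log_le_log hrR h3
  rw [Real.log_pow] at h4
  have h5 : (1 : ℝ) ≤ Nat.log (Λ + 1) r := by exact_mod_cast (by omega : 1 ≤ Nat.log (Λ + 1) r)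
  push_cast at h4
  nlinarith

theorem p_lower (p : ℕ → ℝ)
    (hp : Tendsto (fun k : ℕ => p k * (Real.log k / Real.log (Real.log k))) atTop atTop) (M : ℝ) :
    ∃ k₀ : ℕ, ∀ k : ℕ, k₀ ≤ k → ∀ y : ℝ, Real.log k ≤ y → M * (Real.log y / y) ≤ p k := by
  obtain ⟨k₁, hk₁⟩ := Filter.eventually_atTop.1 (hp.eventually_ge_atTop |M|)
  refine ⟨k₁ + 27, ?_⟩
  intro k hk y hy
  have hkR : (27 : ℝ) ≤ k := by exact_mod_cast (by omega : 27 ≤ k)
  have hlog3 : (1.09 : ℝ) < Real.log 3 := by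
    have h1 : (1.09 : ℝ) < Real.log 3 := by
      rw [Real.lt_log_iff_exp_lt (by norm_num)]
      have h2 : Real.exp 1.09 = Real.exp 1 * Real.exp 0.09 := by rw [← Real.exp_add]; norm_num
      rw [h2]
      have h3 := Real.exp_one_lt_d9
      have h4 : Real.exp 0.09 < 1.0990 := by
        have h5 : Real.exp 0.09 ≤ 1 / (1 - 0.09) := by
          have h6 := Real.add_one_le_exp (-0.09 : ℝ)
          rw [le_div_iff₀ (by norm_num)]
          have h7 : Real.exp 0.09 * Real.exp (-0.09) = 1 := by rw [← Real.exp_add]; norm_num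
          have h8 := Real.exp_pos (0.09 : ℝ)
          nlinarith
        have h9 : (1 : ℝ) / (1 - 0.09) < 1.0990 := by norm_num
        linarith
      have h10 := Real.exp_pos (0.09 : ℝ)
      nlinarith
    exact h1
  have hlk : 3.27 < Real.log k := by
    have h1 : Real.log 27 ≤ Real.log k := Real.log_le_log (by norm_num) hkR
    have h2 : Real.log 27 = 3 * Real.log 3 := by
      rw [show (27 : ℝ) = 3 ^ 3 by norm_num, Real.log_pow]
      norm_num
    linarith
  have he : Real.exp 1 ≤ Real.log k := by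
    have := Real.exp_one_lt_d9
    linarith
  have hllk : 1 ≤ Real.log (Real.log k) := by
    rw [Real.le_log_iff_exp_le (by linarith)]
    exact he
  have h1 := hk₁ k (by omega)
  have h2 : |M| * (Real.log (Real.log k) / Real.log k) ≤ p k := by
    have h3 : 0 < Real.log k / Real.log (Real.log k) := div_pos (by linarith) (by linarith)
    have h4 : |M| / (Real.log k / Real.log (Real.log k)) ≤ p k := by
      rw [div_le_iff₀ h3]
      exact h1
    have h5 : |M| / (Real.log k / Real.log (Real.log k)) =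
        |M| * (Real.log (Real.log k) / Real.log k) := by
      rw [div_div_eq_mul_div, mul_div_assoc]
    rwa [h5] at h4
  have h6 : Real.log y / y ≤ Real.log (Real.log k) / Real.log k :=
    Real.log_div_self_antitoneOn he (he.trans hy) hy
  have h7 : 0 ≤ Real.log y / y := by
    have h8 : 1 ≤ y := by
      have := Real.exp_one_gt_d9
      linarith
    exact div_nonneg (Real.log_nonneg h8) (by linarith)
  calc M * (Real.log y / y) ≤ |M| * (Real.log y / y) :=
        mul_le_mul_of_nonneg_right (le_abs_self M) h7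
    _ ≤ |M| * (Real.log (Real.log k) / Real.log k) :=
        mul_le_mul_of_nonneg_left h6 (abs_nonneg M)
    _ ≤ p k := h2

theorem exists_log_sq : ∃ R : ℕ, ∀ r : ℕ, R ≤ r → 25 * Real.log r ^ 2 ≤ r := by
  have h1 := Real.isLittleO_pow_log_id_atTop (n := 2)
  have h2 := h1.def (by norm_num : (0 : ℝ) < 1 / 25)
  have h3 := (tendsto_natCast_atTop_atTop (R := ℝ)).eventually h2
  obtain ⟨R, hR⟩ := Filter.eventually_atTop.1 h3
  refine ⟨R, fun r hr => ?_⟩
  have h4 := hR r hr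
  rw [Real.norm_eq_abs, Real.norm_eq_abs, id, abs_of_nonneg (by positivity),
    abs_of_nonneg (Nat.cast_nonneg r)] at h4
  linarith

/-- The estimate of the correlations, for an abstract characteristic function `E`. -/
theorem corr_small (b : ℕ) (hb : 2 ≤ b) (β γ K ρ : ℝ) (hβ : 1 < β)
    (hirr : Irrational (Real.log β / Real.log b)) (hγ0 : 0 ≤ γ) (hγ : γ < β)
    (hρ : ρ ≠ 0) (v : ℕ → ℝ) (hv : ∀ n, |v n - ρ * β ^ n| ≤ K * γ ^ n) (h q : ℕ) (hh : 1 ≤ h)
    (hq : 1 ≤ q) (D : ℕ) (a : ℕ → ℕ) (ha : StrictMono a) (haD : ∀ n, a n ≤ D * (n + 1))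
    (p : ℕ → ℝ)
    (hp : Tendsto (fun k : ℕ => p k * (Real.log k / Real.log (Real.log k))) atTop atTop)
    (κ₀ : ℝ) (hκ₀ : 0 < κ₀) (E : ℝ → ℝ) (hE1 : ∀ T, E T ≤ 1) (hEs : ∀ T, E (-T) = E T)
    (hE : ∀ (T : ℝ) (F : Finset ℕ), (∀ k ∈ F, 0 ≤ p k) → (∀ k ∈ F, Change b (T * q) k) →
      E T ≤ Real.exp (-(κ₀ * ∑ k ∈ F, p k))) (η : ℝ) (hη : 0 < η) :
    ∃ (K' : ℝ) (J₀ : ℕ), ∀ J : ℕ, J₀ ≤ J → ∃ G : Finset ℕ, G ⊆ range J ∧
      (1 - η) * J ≤ G.card ∧ ∑ i ∈ G, ∑ l ∈ G, E (h * (v (a i) - v (a l))) ≤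
        K' * (J : ℝ) ^ 2 / Real.log J ^ 2 := by
  classical
  have hD1 : 1 ≤ D := by
    have h1 := ha (by omega : 0 < 1)
    have h2 := haD 1
    by_contra h3
    have h4 : D = 0 := by omega
    rw [h4] at h2
    omega
  set D₀ : ℕ := ⌈12 * ((D : ℝ) + 1) / η⌉₊ + 1 with hD₀
  obtain ⟨Λ, r₀, C₁, hΛ1, hkey⟩ := key b hb β γ K ρ hβ hirr hγ0 hγ hρ v hv h q hh hq D₀ (by omega)
  obtain ⟨L, hL⟩ : ∃ L : ℝ, L = Real.log ((Λ : ℝ) + 1) := ⟨_, rfl⟩
  have hL0 : 0 < L := by
    rw [hL]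
    apply Real.log_pos
    have : (1 : ℝ) ≤ Λ := by exact_mod_cast hΛ1
    linarith
  obtain ⟨k₀, hk₀⟩ := p_lower p hp (40 * L / κ₀)
  obtain ⟨k₁, hk₁⟩ := p_lower p hp 0
  obtain ⟨R₁, hR₁⟩ := exists_log_sq
  set R₀ : ℕ := r₀ + (Λ + 1) ^ 2 + 16 * (C₁ + 1) + k₀ + k₁ + R₁ + ⌈2 * ((D : ℝ) + 1) / η⌉₊ + 27
    with hR₀
  refine ⟨1 + 3 * ((D : ℝ) + 1), R₀ ^ 4, ?_⟩
  intro J hJ
  obtain ⟨N, hN⟩ : ∃ N : ℕ, N = (D + 1) * J := ⟨_, rfl⟩
  obtain ⟨r, hr⟩ : ∃ r : ℕ, r = Nat.sqrt (Nat.sqrt N) := ⟨_, rfl⟩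
  have hJN : J ≤ N := by rw [hN]; exact Nat.le_mul_of_pos_left _ (by omega)
  have hRr : R₀ ≤ r := by
    rw [hr, Nat.le_sqrt, Nat.le_sqrt]
    calc R₀ * R₀ * (R₀ * R₀) = R₀ ^ 4 := by ring
      _ ≤ J := hJ
      _ ≤ N := hJN
  have hr4 : r ^ 4 ≤ N := by
    have h1 : r * r ≤ Nat.sqrt N := by rw [hr]; exact Nat.sqrt_le _
    calc r ^ 4 = (r * r) * (r * r) := by ring
      _ ≤ Nat.sqrt N * Nat.sqrt N := Nat.mul_le_mul h1 h1
      _ ≤ N := Nat.sqrt_le _
  have hr4' : N < (r + 1) ^ 4 := by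
    have h1 : Nat.sqrt N < (r + 1) * (r + 1) := by rw [hr]; exact Nat.lt_succ_sqrt _
    have h2 : N < (Nat.sqrt N + 1) * (Nat.sqrt N + 1) := Nat.lt_succ_sqrt N
    calc N < (Nat.sqrt N + 1) * (Nat.sqrt N + 1) := h2
      _ ≤ ((r + 1) * (r + 1)) * ((r + 1) * (r + 1)) := Nat.mul_le_mul h1 h1
      _ = (r + 1) ^ 4 := by ring
  have hr27 : 27 ≤ r := by omega
  have hpow : (r + 1) ^ 4 ≤ 16 * r ^ 4 := by
    calc (r + 1) ^ 4 ≤ (2 * r) ^ 4 := Nat.pow_le_pow_left (by omega) 4
      _ = 16 * r ^ 4 := by ring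
  have hC₁N : C₁ * N ≤ r ^ 5 := by
    calc C₁ * N ≤ C₁ * (16 * r ^ 4) := Nat.mul_le_mul_left _ (hr4'.le.trans hpow)
      _ = (16 * C₁) * r ^ 4 := by ring
      _ ≤ r * r ^ 4 := Nat.mul_le_mul_right _ (by omega)
      _ = r ^ 5 := by ring
  have hNr5 : N ≤ r ^ 5 := by
    calc N ≤ 16 * r ^ 4 := hr4'.le.trans hpow
      _ ≤ r * r ^ 4 := Nat.mul_le_mul_right _ (by omega)
      _ = r ^ 5 := by ring
  have hrR : (27 : ℝ) ≤ r := by exact_mod_cast hr27
  have hJ27 : 27 ≤ J := by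
    calc 27 ≤ R₀ := by omega
      _ ≤ R₀ ^ 4 := Nat.le_self_pow (by omega) _
      _ ≤ J := hJ
  have hJR : (27 : ℝ) ≤ J := by exact_mod_cast hJ27
  have hlogr : 1 ≤ Real.log r := by
    rw [Real.le_log_iff_exp_le (by linarith)]
    have := Real.exp_one_lt_d9
    linarith
  have hlogJ : 1 ≤ Real.log J := by
    rw [Real.le_log_iff_exp_le (by linarith)]
    have := Real.exp_one_lt_d9
    linarith
  obtain ⟨y, hy⟩ : ∃ y : ℝ, y = 5 * Real.log r := ⟨_, rfl⟩
  have hy5 : 5 ≤ y := by linarith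
  have hlogy : 0 ≤ Real.log y := Real.log_nonneg (by linarith)
  have hlogk : ∀ k : ℕ, 1 ≤ k → k ≤ r ^ 5 → Real.log k ≤ y := by
    intro k hk1 hk
    have h1 : Real.log k ≤ Real.log ((r ^ 5 : ℕ) : ℝ) :=
      Real.log_le_log (by exact_mod_cast hk1) (by exact_mod_cast hk)
    rw [Nat.cast_pow, Real.log_pow] at h1
    rw [hy]
    exact_mod_cast h1
  have hlogJy : Real.log J ≤ y := hlogk J (by omega) (hJN.trans hNr5)
  obtain ⟨Bad, hBad, hmain⟩ := hkey r (by omega) N hr4
  -- the estimate of one correlation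
  have hcorr : ∀ n m : ℕ, n < N → n ∉ Bad → r ^ 3 ≤ n → m + r ^ 3 ≤ n →
      E (h * (v n - v m)) ≤ 1 / Real.log J ^ 2 := by
    intro n m hn hnb hn3 hm3
    obtain ⟨F, hF1, hF2⟩ := hmain n m hn hnb hn3 hm3
    have hFk : ∀ k ∈ F, r ≤ k := by
      intro k hk
      have := (hF2 k hk).1
      calc r ≤ r ^ 2 := Nat.le_self_pow (by omega) _
        _ ≤ k := this
    have hFp : ∀ k ∈ F, 0 ≤ p k := by
      intro k hk
      have h1 := hFk k hk
      have h2 := hk₁ k (by omega) (Real.log k) le_rfl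
      linarith
    have hFp2 : ∀ k ∈ F, 40 * L / κ₀ * (Real.log y / y) ≤ p k := by
      intro k hk
      have h1 := hFk k hk
      exact hk₀ k (by omega) y (hlogk k (by omega) ((hF2 k hk).2.1.trans hC₁N))
    have h1 := hE (h * (v n - v m)) F hFp (fun k hk => (hF2 k hk).2.2)
    refine h1.trans ?_
    have h2 : (F.card : ℝ) * (40 * L / κ₀ * (Real.log y / y)) ≤ ∑ k ∈ F, p k := by
      rw [← nsmul_eq_mul]
      exact Finset.card_nsmul_le_sum _ _ _ hFp2
    have h3 := log_le_natLog Λ r hΛ1 (by omega)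
    rw [← hL] at h3
    have h4 : (Nat.log (Λ + 1) r : ℝ) ≤ 2 * F.card := by exact_mod_cast hF1
    have h5 : Real.log r ≤ 4 * L * F.card := by
      have := mul_le_mul_of_nonneg_left h4 (by positivity : (0 : ℝ) ≤ 2 * L)
      linarith
    have h6 : 2 * Real.log y ≤ κ₀ * ∑ k ∈ F, p k := by
      have h7 : κ₀ * ((F.card : ℝ) * (40 * L / κ₀ * (Real.log y / y))) =
          (4 * L * F.card) * (2 * Real.log y) / Real.log r := by
        rw [hy]
        field_simp
        ring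
      have h8 : 2 * Real.log y ≤ (4 * L * F.card) * (2 * Real.log y) / Real.log r := by
        rw [le_div_iff₀ (by linarith)]
        have := mul_le_mul_of_nonneg_left h5 (by linarith : 0 ≤ 2 * Real.log y)
        linarith
      have h9 := mul_le_mul_of_nonneg_left h2 hκ₀.le
      linarith
    calc Real.exp (-(κ₀ * ∑ k ∈ F, p k)) ≤ Real.exp (-(2 * Real.log y)) :=
          Real.exp_le_exp.2 (by linarith)
      _ = 1 / y ^ 2 := by
        rw [Real.exp_neg, one_div]
        congr 1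
        rw [two_mul, Real.exp_add, Real.exp_log (by linarith)]
        ring
      _ ≤ 1 / Real.log J ^ 2 := by
        apply one_div_le_one_div_of_le (by positivity)
        exact pow_le_pow_left₀ (by linarith) hlogJy 2
  -- the good set
  set G : Finset ℕ := (range J).filter (fun i => a i ∉ Bad ∧ r ^ 3 ≤ a i) with hG
  have haN : ∀ i < J, a i < N := by
    intro i hi
    calc a i ≤ D * (i + 1) := haD i
      _ ≤ D * J := Nat.mul_le_mul_left _ hi
      _ < (D + 1) * J := Nat.mul_lt_mul_of_pos_right (Nat.lt_succ_self _) (by omega)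
      _ = N := hN.symm
  have hr3J : (r : ℝ) ^ 3 * r ≤ ((D : ℝ) + 1) * J := by
    have h1 : r ^ 3 * r ≤ (D + 1) * J := by
      calc r ^ 3 * r = r ^ 4 := by ring
        _ ≤ N := hr4
        _ = (D + 1) * J := hN
    exact_mod_cast h1
  have hinj : Function.Injective a := ha.injective
  refine ⟨G, Finset.filter_subset _ _, ?_, ?_⟩
  · -- the size of the good set
    have h1 : range J ⊆ G ∪ ((range J).filter (fun i => a i ∈ Bad) ∪
        (range J).filter (fun i => a i < r ^ 3)) := by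
      intro i hi
      rw [Finset.mem_union, Finset.mem_union, hG, Finset.mem_filter, Finset.mem_filter,
        Finset.mem_filter]
      by_cases h2 : a i ∈ Bad
      · exact Or.inr (Or.inl ⟨hi, h2⟩)
      · by_cases h3 : a i < r ^ 3
        · exact Or.inr (Or.inr ⟨hi, h3⟩)
        · exact Or.inl ⟨hi, h2, by omega⟩
    have h2 : ((range J).filter (fun i => a i ∈ Bad)).card ≤ Bad.card := by
      apply Finset.card_le_card_of_injOn a
      · intro i hi
        rw [Finset.mem_coe, Finset.mem_filter] at hi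
        exact hi.2
      · exact hinj.injOn
    have h3 : ((range J).filter (fun i => a i < r ^ 3)).card ≤ r ^ 3 := by
      have h4 : ((range J).filter (fun i => a i < r ^ 3)).card ≤ (range (r ^ 3)).card := by
        apply Finset.card_le_card_of_injOn a
        · intro i hi
          rw [Finset.mem_coe, Finset.mem_filter] at hi
          rw [Finset.mem_coe, Finset.mem_range]
          exact hi.2
        · exact hinj.injOn
      rwa [Finset.card_range] at h4
    have h4 : J ≤ G.card + (Bad.card + r ^ 3) := by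
      calc J = (range J).card := (Finset.card_range J).symm
        _ ≤ _ := Finset.card_le_card h1
        _ ≤ _ := Finset.card_union_le _ _
        _ ≤ G.card + (((range J).filter (fun i => a i ∈ Bad)).card +
            ((range J).filter (fun i => a i < r ^ 3)).card) :=
          Nat.add_le_add_left (Finset.card_union_le _ _) _
        _ ≤ _ := by omega
    have h5 : (J : ℝ) ≤ G.card + (Bad.card + (r : ℝ) ^ 3) := by exact_mod_cast h4
    have h6 : (Bad.card : ℝ) ≤ η / 2 * J := by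
      have h7 : (Bad.card : ℝ) * D₀ ≤ 6 * (((D : ℝ) + 1) * J) := by
        have : Bad.card * D₀ ≤ 6 * ((D + 1) * J) := by rw [← hN]; exact hBad
        exact_mod_cast this
      have h8 : 12 * ((D : ℝ) + 1) / η ≤ D₀ := by
        rw [hD₀]
        push_cast
        have := Nat.le_ceil (12 * ((D : ℝ) + 1) / η)
        linarith
      rw [div_le_iff₀ hη] at h8
      have hD₀0 : (0 : ℝ) < D₀ := by
        rw [hD₀]
        positivity
      have h9 : (Bad.card : ℝ) * D₀ ≤ (η / 2 * J) * D₀ := by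
        have hJ0 : (0 : ℝ) ≤ J := Nat.cast_nonneg _
        nlinarith
      exact le_of_mul_le_mul_right h9 hD₀0
    have h7 : (r : ℝ) ^ 3 ≤ η / 2 * J := by
      have h8 : 2 * ((D : ℝ) + 1) / η ≤ r := by
        refine (Nat.le_ceil _).trans ?_
        exact_mod_cast (by omega : ⌈2 * ((D : ℝ) + 1) / η⌉₊ ≤ r)
      rw [div_le_iff₀ hη] at h8
      have h9 : (r : ℝ) ^ 3 * r ≤ (η / 2 * J) * r := by
        have hJ0 : (0 : ℝ) ≤ J := Nat.cast_nonneg _
        nlinarith
      exact le_of_mul_le_mul_right h9 (by linarith)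
    linarith
  · -- the double sum
    have hterm : ∀ i ∈ G, ∀ l ∈ G, E (h * (v (a i) - v (a l))) ≤ 1 / Real.log J ^ 2 +
        (if a i < a l + r ^ 3 ∧ a l < a i + r ^ 3 then 1 else 0) := by
      intro i hi l hl
      rw [hG, Finset.mem_filter, Finset.mem_range] at hi hl
      have hpos : 0 ≤ 1 / Real.log J ^ 2 := by positivity
      split_ifs with hc
      · have := hE1 (h * (v (a i) - v (a l)))
        linarith
      · rw [add_zero]
        rw [not_and_or, not_lt, not_lt] at hc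
        rcases hc with hc | hc
        · exact hcorr _ _ (haN i hi.1) hi.2.1 hi.2.2 hc
        · have h1 := hcorr _ _ (haN l hl.1) hl.2.1 hl.2.2 hc
          rw [← hEs] at h1
          have h2 : -((h : ℝ) * (v (a l) - v (a i))) = h * (v (a i) - v (a l)) := by ring
          rwa [h2] at h1
    have hGJ : (G.card : ℝ) ≤ J := by
      have h1 : G.card ≤ (range J).card := Finset.card_le_card (Finset.filter_subset _ _)
      rw [Finset.card_range] at h1
      exact_mod_cast h1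
    have hrow : ∀ i ∈ G, ∑ l ∈ G, E (h * (v (a i) - v (a l))) ≤
        J * (1 / Real.log J ^ 2) + 3 * (r : ℝ) ^ 3 := by
      intro i hi
      have h1 : ∑ l ∈ G, (if a i < a l + r ^ 3 ∧ a l < a i + r ^ 3 then (1 : ℝ) else 0) ≤
          3 * (r : ℝ) ^ 3 := by
        rw [Finset.sum_boole]
        have h2 : (G.filter (fun l => a i < a l + r ^ 3 ∧ a l < a i + r ^ 3)).card ≤
            (Finset.Icc (a i - r ^ 3) (a i + r ^ 3)).card := by
          apply Finset.card_le_card_of_injOn a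
          · intro l hl
            rw [Finset.mem_coe, Finset.mem_filter] at hl
            rw [Finset.mem_coe, Finset.mem_Icc]
            omega
          · exact hinj.injOn
        have h3 : 1 ≤ r ^ 3 := Nat.one_le_pow _ _ (by omega)
        rw [Nat.card_Icc] at h2
        have h4 : (G.filter (fun l => a i < a l + r ^ 3 ∧ a l < a i + r ^ 3)).card ≤ 3 * r ^ 3 := by
          omega
        exact_mod_cast h4
      calc ∑ l ∈ G, E (h * (v (a i) - v (a l))) ≤ ∑ l ∈ G, (1 / Real.log J ^ 2 +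
            (if a i < a l + r ^ 3 ∧ a l < a i + r ^ 3 then 1 else 0)) :=
            Finset.sum_le_sum (hterm i hi)
        _ = G.card * (1 / Real.log J ^ 2) +
            ∑ l ∈ G, (if a i < a l + r ^ 3 ∧ a l < a i + r ^ 3 then (1 : ℝ) else 0) := by
          rw [Finset.sum_add_distrib, Finset.sum_const, nsmul_eq_mul]
        _ ≤ _ := by
          have : (G.card : ℝ) * (1 / Real.log J ^ 2) ≤ J * (1 / Real.log J ^ 2) :=
            mul_le_mul_of_nonneg_right hGJ (by positivity)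
          linarith
    have hr3 : (r : ℝ) ^ 3 * Real.log J ^ 2 ≤ ((D : ℝ) + 1) * J := by
      have h1 : Real.log J ^ 2 ≤ 25 * Real.log r ^ 2 := by
        calc Real.log J ^ 2 ≤ y ^ 2 := pow_le_pow_left₀ (by linarith) hlogJy 2
          _ = 25 * Real.log r ^ 2 := by rw [hy]; ring
      have h2 := hR₁ r (by omega)
      calc (r : ℝ) ^ 3 * Real.log J ^ 2 ≤ (r : ℝ) ^ 3 * r := by gcongr; linarith
        _ ≤ _ := hr3J
    have hlJ2 : 0 < Real.log J ^ 2 := by positivity
    calc ∑ i ∈ G, ∑ l ∈ G, E (h * (v (a i) - v (a l))) ≤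
          ∑ i ∈ G, ((J : ℝ) * (1 / Real.log J ^ 2) + 3 * (r : ℝ) ^ 3) := Finset.sum_le_sum hrow
      _ = G.card * ((J : ℝ) * (1 / Real.log J ^ 2) + 3 * (r : ℝ) ^ 3) := by
        rw [Finset.sum_const, nsmul_eq_mul]
      _ ≤ J * ((J : ℝ) * (1 / Real.log J ^ 2) + 3 * (r : ℝ) ^ 3) :=
        mul_le_mul_of_nonneg_right hGJ (by positivity)
      _ ≤ (1 + 3 * ((D : ℝ) + 1)) * (J : ℝ) ^ 2 / Real.log J ^ 2 := by
        rw [le_div_iff₀ hlJ2]
        have h1 : (J : ℝ) * ((J : ℝ) * (1 / Real.log J ^ 2) + 3 * (r : ℝ) ^ 3) * Real.log J ^ 2 =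
            (J : ℝ) ^ 2 + 3 * J * ((r : ℝ) ^ 3 * Real.log J ^ 2) := by
          field_simp
        rw [h1]
        have h2 := mul_le_mul_of_nonneg_left hr3 (by positivity : (0 : ℝ) ≤ 3 * J)
        nlinarith

end Pool.Agent.Helper32.RB
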