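import Pool.Agent.Helper32.RB.Core

/-!
# Digit changes

A real number `T` with no digit change in a long window of base `b` is a power of `b` times a
small integer, up to a factor very near to one.
-/

namespace Pool.Agent.Helper32.RB

open Finset

/-- The signed distance to the nearest integer. -/
noncomputable def fr (x : ℝ) : ℝ := x - round x

/-- `k` is a digit change of `T` in base `b`. -/
def Change (b : ℕ) (T : ℝ) (k : ℕ) : Prop := 1 / (2 * ((b : ℝ) + 1)) ≤ |fr (T / (b : ℝ) ^ k)|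

theorem fr_step (b : ℕ) (hb : 2 ≤ b) (T : ℝ) (k : ℕ) (h1 : ¬ Change b T k)
    (h2 : ¬ Change b T (k + 1)) :
    fr (T / (b : ℝ) ^ k) = b * fr (T / (b : ℝ) ^ (k + 1)) := by
  unfold Change at h1 h2
  push Not at h1 h2
  have hb0 : (0 : ℝ) < b := by exact_mod_cast (by omega : 0 < b)
  have hT : T / (b : ℝ) ^ k = b * (T / (b : ℝ) ^ (k + 1)) := by
    rw [pow_succ]
    field_simp
  set x := T / (b : ℝ) ^ k with hx
  set z := T / (b : ℝ) ^ (k + 1) with hz
  have h3 : ((b * round z - round x : ℤ) : ℝ) = fr x - b * fr z := by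
    unfold fr
    push_cast
    rw [hT]
    ring
  have h4 : |((b * round z - round x : ℤ) : ℝ)| < 1 := by
    rw [h3]
    have h5 : |fr x - b * fr z| ≤ |fr x| + b * |fr z| := by
      refine (abs_sub _ _).trans ?_
      rw [abs_mul, abs_of_pos hb0]
    have h6 : |fr x| + b * |fr z| < 1 / (2 * ((b : ℝ) + 1)) + b * (1 / (2 * ((b : ℝ) + 1))) := by
      have := mul_lt_mul_of_pos_left h2 hb0
      linarith
    have h7 : 1 / (2 * ((b : ℝ) + 1)) + b * (1 / (2 * ((b : ℝ) + 1))) = 1 / 2 := by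
      field_simp
      ring
    linarith
  have h8 : (b * round z - round x : ℤ) = 0 := by
    have h9 : |(b * round z - round x : ℤ)| < 1 := by exact_mod_cast h4
    exact Int.abs_lt_one_iff.1 h9
  rw [h8] at h3
  push_cast at h3
  linarith

theorem fr_window (b : ℕ) (hb : 2 ≤ b) (T : ℝ) (k₁ d : ℕ)
    (h : ∀ k, k₁ ≤ k → k ≤ k₁ + d → ¬ Change b T k) :
    |fr (T / (b : ℝ) ^ (k₁ + d))| ≤ 1 / (2 * ((b : ℝ) + 1)) / (b : ℝ) ^ d := by
  have hb0 : (0 : ℝ) < b := by exact_mod_cast (by omega : 0 < b)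
  have key : ∀ j, j ≤ d → fr (T / (b : ℝ) ^ k₁) = (b : ℝ) ^ j * fr (T / (b : ℝ) ^ (k₁ + j)) := by
    intro j
    induction j with
    | zero => intro _; simp
    | succ j ih =>
      intro hj
      rw [ih (by omega), fr_step b hb T (k₁ + j) (h _ (by omega) (by omega))
        (h _ (by omega) (by omega)), pow_succ]
      ring_nf
  have h1 := key d le_rfl
  have h2 : |fr (T / (b : ℝ) ^ k₁)| < 1 / (2 * ((b : ℝ) + 1)) := by
    have := h k₁ le_rfl (by omega)
    unfold Change at this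
    push Not at this
    exact this
  rw [h1, abs_mul, abs_of_pos (pow_pos hb0 d)] at h2
  rw [le_div_iff₀ (pow_pos hb0 d)]
  linarith

theorem mem_ZZ_of_no_change (b : ℕ) (hb : 2 ≤ b) (β H T : ℝ) (κ n Λ y : ℕ) (hΛ : 1 ≤ Λ)
    (hy : 1 ≤ y) (hκ1 : (b : ℝ) ^ κ ≤ |T|) (hκ2 : |T| < (b : ℝ) ^ (κ + 1))
    (hΛκ : (Λ + 1) * y ≤ κ)
    (hno : ∀ k, κ - (Λ + 1) * y < k → k ≤ κ - y → ¬ Change b T k)
    (hlog : |Real.log |T| - (Real.log H + n * Real.log β)| ≤ 1 / 2 / (b : ℝ) ^ (Λ * y)) :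
    n ∈ ZZ b β H Λ y := by
  have hb0 : (0 : ℝ) < b := by exact_mod_cast (by omega : 0 < b)
  have hb1 : (1 : ℝ) < b := by exact_mod_cast (by omega : 1 < b)
  have hyκ : y ≤ κ := by
    calc y ≤ (Λ + 1) * y := Nat.le_mul_of_pos_left y (by omega)
      _ ≤ κ := hΛκ
  have hΛy : 1 ≤ Λ * y := Nat.mul_pos hΛ hy
  have hexp : (Λ + 1) * y = Λ * y + y := by ring
  -- the integer part
  have hd : (κ - (Λ + 1) * y + 1) + (Λ * y - 1) = κ - y := by omega
  have hwin := fr_window b hb T (κ - (Λ + 1) * y + 1) (Λ * y - 1) (by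
    intro k h1 h2
    exact hno k (by omega) (by omega))
  rw [hd] at hwin
  set x := T / (b : ℝ) ^ (κ - y) with hx
  have hpow : (b : ℝ) ^ (Λ * y) = (b : ℝ) ^ (Λ * y - 1) * b := by
    rw [← pow_succ]
    congr 1
    omega
  have hfr : |fr x| ≤ 1 / 2 / (b : ℝ) ^ (Λ * y) := by
    refine hwin.trans ?_
    rw [hpow, div_div, div_div]
    apply div_le_div_of_nonneg_left zero_le_one (by positivity)
    have : (0 : ℝ) < (b : ℝ) ^ (Λ * y - 1) := by positivity
    nlinarith
  have habsx : |x| = |T| / (b : ℝ) ^ (κ - y) := by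
    rw [hx, abs_div, abs_of_pos (pow_pos hb0 (κ - y))]
  have hx1 : (b : ℝ) ^ y ≤ |x| := by
    rw [habsx, le_div_iff₀ (pow_pos hb0 _), ← pow_add]
    have : y + (κ - y) = κ := by omega
    rw [this]
    exact hκ1
  have hx2 : |x| < (b : ℝ) ^ (y + 1) := by
    rw [habsx, div_lt_iff₀ (pow_pos hb0 _), ← pow_add]
    have : y + 1 + (κ - y) = κ + 1 := by omega
    rw [this]
    exact hκ2
  have hpowy : (2 : ℝ) ≤ (b : ℝ) ^ y := by
    calc (2 : ℝ) ≤ b := by exact_mod_cast hb
      _ = (b : ℝ) ^ 1 := (pow_one _).symm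
      _ ≤ (b : ℝ) ^ y := pow_le_pow_right₀ hb1.le hy
  have hη : |fr x| ≤ 1 / 4 := by
    refine hfr.trans ?_
    have : (2 : ℝ) ≤ (b : ℝ) ^ (Λ * y) := by
      calc (2 : ℝ) ≤ b := by exact_mod_cast hb
        _ = (b : ℝ) ^ 1 := (pow_one _).symm
        _ ≤ (b : ℝ) ^ (Λ * y) := pow_le_pow_right₀ hb1.le hΛy
    rw [div_le_iff₀ (by positivity)]
    linarith
  set a : ℕ := (round x).natAbs with ha
  have haR : (a : ℝ) = |(round x : ℝ)| := by
    rw [ha, Nat.cast_natAbs, Int.cast_abs]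
  have hxa : |(|x| - a)| ≤ |fr x| := by
    rw [haR]
    exact abs_abs_sub_abs_le_abs_sub x _
  have hxa1 := abs_le.1 hxa
  have ha1 : (1 : ℝ) ≤ a := by linarith
  refine ⟨(κ - y : ℕ), a, by exact_mod_cast ha1, ?_, ?_⟩
  · have h1 : (a : ℝ) < ((b ^ (y + 1) + 1 : ℕ) : ℝ) := by
      push_cast
      linarith
    have h2 : a ≤ b ^ (y + 1) := by
      have : a < b ^ (y + 1) + 1 := by exact_mod_cast h1
      omega
    exact h2.trans (Nat.pow_le_pow_right (by omega) (by omega))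
  · have hx0 : 1 ≤ |x| := by linarith
    have hlogx : Real.log |T| = Real.log |x| + ((κ - y : ℕ) : ℝ) * Real.log b := by
      have hT0 : (0 : ℝ) < |T| := lt_of_lt_of_le (pow_pos hb0 κ) hκ1
      rw [habsx, Real.log_div hT0.ne' (by positivity), Real.log_pow]
      ring
    have hcmp : |Real.log |x| - Real.log a| ≤ 1 / 2 / (b : ℝ) ^ (Λ * y) := by
      have ha0 : (0 : ℝ) < a := by linarith
      have hx00 : (0 : ℝ) < |x| := by linarith
      have h1 : Real.log |x| - Real.log a ≤ |fr x| := by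
        rw [← Real.log_div hx00.ne' ha0.ne']
        have h2 := Real.log_le_sub_one_of_pos (div_pos hx00 ha0)
        have h3 : |x| / a - 1 = (|x| - a) / a := by field_simp
        rw [h3] at h2
        refine h2.trans ?_
        rw [div_le_iff₀ ha0]
        have := abs_nonneg (fr x)
        nlinarith
      have h1' : Real.log a - Real.log |x| ≤ |fr x| := by
        rw [← Real.log_div ha0.ne' hx00.ne']
        have h2 := Real.log_le_sub_one_of_pos (div_pos ha0 hx00)
        have h3 : a / |x| - 1 = (a - |x|) / |x| := by field_simp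
        rw [h3] at h2
        refine h2.trans ?_
        rw [div_le_iff₀ hx00]
        have := abs_nonneg (fr x)
        nlinarith
      rw [abs_le]
      constructor <;> linarith
    have h1 := abs_le.1 hlog
    have h2 := abs_le.1 hcmp
    rw [hlogx] at h1
    have h3 : (1 : ℝ) / (b : ℝ) ^ (Λ * y) = 2 * (1 / 2 / (b : ℝ) ^ (Λ * y)) := by ring
    rw [Int.cast_natCast, abs_le, h3]
    constructor <;> linarith

/-- Many scales, many changes. -/
theorem exists_changes (b : ℕ) (hb : 2 ≤ b) (β H T : ℝ) (κ n Λ y I : ℕ) (hΛ : 1 ≤ Λ)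
    (hy : 1 ≤ y) (hκ1 : (b : ℝ) ^ κ ≤ |T|) (hκ2 : |T| < (b : ℝ) ^ (κ + 1))
    (hI : y * (Λ + 1) ^ I ≤ κ)
    (hlog : |Real.log |T| - (Real.log H + n * Real.log β)| ≤
      1 / 2 / (b : ℝ) ^ (Λ * (y * (Λ + 1) ^ I))) :
    ∃ F : Finset ℕ, (∀ k ∈ F, κ - y * (Λ + 1) ^ I < k ∧ k ≤ κ ∧ Change b T k) ∧
      ∀ Z : Finset ℕ, (∀ i ∈ range I, n ∈ ZZ b β H Λ (y * (Λ + 1) ^ i) → i ∈ Z) →
        I ≤ F.card + Z.card := by
  classical
  have hb1 : (1 : ℝ) < b := by exact_mod_cast (by omega : 1 < b)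
  have hmono : ∀ i j : ℕ, i ≤ j → y * (Λ + 1) ^ i ≤ y * (Λ + 1) ^ j := fun i j h =>
    Nat.mul_le_mul_left _ (Nat.pow_le_pow_right (by omega) h)
  have hex : ∀ i ∈ range I, n ∉ ZZ b β H Λ (y * (Λ + 1) ^ i) →
      ∃ k, κ - y * (Λ + 1) ^ (i + 1) < k ∧ k ≤ κ - y * (Λ + 1) ^ i ∧ Change b T k := by
    intro i hi hn
    rw [Finset.mem_range] at hi
    by_contra hno
    push Not at hno
    apply hn
    have e1 : (Λ + 1) * (y * (Λ + 1) ^ i) = y * (Λ + 1) ^ (i + 1) := by rw [pow_succ]; ring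
    apply mem_ZZ_of_no_change b hb β H T κ n Λ (y * (Λ + 1) ^ i) hΛ
      (Nat.mul_pos hy (by positivity)) hκ1 hκ2
    · rw [e1]
      exact (hmono (i + 1) I (by omega)).trans hI
    · intro k h1 h2
      rw [e1] at h1
      exact hno k h1 h2
    · refine hlog.trans ?_
      apply div_le_div_of_nonneg_left (by norm_num) (by positivity)
      apply pow_le_pow_right₀ hb1.le
      exact Nat.mul_le_mul_left _ (hmono i I hi.le)
  choose! f hf using hex
  set G : Finset ℕ := (range I).filter (fun i => n ∉ ZZ b β H Λ (y * (Λ + 1) ^ i)) with hG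
  refine ⟨G.image f, ?_, ?_⟩
  · intro k hk
    obtain ⟨i, hi, rfl⟩ := Finset.mem_image.1 hk
    rw [hG, Finset.mem_filter] at hi
    obtain ⟨h1, h2, h3⟩ := hf i hi.1 hi.2
    have hi1 := Finset.mem_range.1 hi.1
    have h4 := hmono (i + 1) I (by omega)
    refine ⟨by omega, by omega, h3⟩
  · intro Z hZ
    have hinj : Set.InjOn f G := by
      intro i hi j hj hij
      rw [Finset.mem_coe, hG, Finset.mem_filter] at hi hj
      obtain ⟨h1, h2, -⟩ := hf i hi.1 hi.2
      obtain ⟨h1', h2', -⟩ := hf j hj.1 hj.2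
      by_contra hne
      rcases Nat.lt_or_gt_of_ne hne with hlt | hgt
      · have := hmono (i + 1) j hlt
        omega
      · have := hmono (j + 1) i hgt
        omega
    rw [Finset.card_image_of_injOn hinj]
    have h1 : range I ⊆ G ∪ Z := by
      intro i hi
      rw [Finset.mem_union]
      by_cases h : n ∈ ZZ b β H Λ (y * (Λ + 1) ^ i)
      · exact Or.inr (hZ i hi h)
      · left
        rw [hG, Finset.mem_filter]
        exact ⟨hi, h⟩
    calc I = (range I).card := (Finset.card_range I).symm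
      _ ≤ (G ∪ Z).card := Finset.card_le_card h1
      _ ≤ G.card + Z.card := Finset.card_union_le _ _

end Pool.Agent.Helper32.RB
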