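import Pool.Agent.Helper32.RB.DensR
import Pool.Agent.Helper32.RB.Chg

/-!
# Digit changes, with polynomial factors
-/

namespace Pool.Agent.Helper32.RB

open Finset

/-- Many scales, many changes; the form with factors `R_n`. -/
theorem exists_changesR (b : ℕ) (hb : 2 ≤ b) (β H T : ℝ) (hH : 0 < H) (R : ℕ → ℕ)
    (κ n Λ y I : ℕ) (hΛ : 1 ≤ Λ) (hy : 1 ≤ y) (hR1 : 1 ≤ R n) (hR2 : R n ≤ b ^ (2 * y))
    (hκ1 : (b : ℝ) ^ κ ≤ |T|) (hκ2 : |T| < (b : ℝ) ^ (κ + 1)) (hI : y * (Λ + 1) ^ I ≤ κ)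
    (hlog : |Real.log |T| - (Real.log H + Real.log (R n) + n * Real.log β)| ≤
      1 / 2 / (b : ℝ) ^ (Λ * (y * (Λ + 1) ^ I))) :
    ∃ F : Finset ℕ, (∀ k ∈ F, κ - y * (Λ + 1) ^ I < k ∧ k ≤ κ ∧ Change b T k) ∧
      ∀ Z : Finset ℕ, (∀ i ∈ range I, n ∈ ZR b β H R Λ (y * (Λ + 1) ^ i) → i ∈ Z) →
        I ≤ F.card + Z.card := by
  have hRR : (0 : ℝ) < R n := by exact_mod_cast hR1
  have hlogHR : Real.log (H * R n) = Real.log H + Real.log (R n) :=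
    Real.log_mul hH.ne' hRR.ne'
  obtain ⟨F, h1, h2⟩ := exists_changes b hb β (H * R n) T κ n Λ y I hΛ hy hκ1 hκ2 hI (by
    rw [hlogHR]
    exact hlog)
  refine ⟨F, h1, fun Z hZ => h2 Z (fun i hi hmem => hZ i hi ?_)⟩
  obtain ⟨k, a, ha1, ha2, ha3⟩ := hmem
  refine ⟨hR1, hR2.trans (Nat.pow_le_pow_right (by omega) ?_), k, a, ha1, ha2, ?_⟩
  · exact Nat.mul_le_mul_left _ (Nat.le_mul_of_pos_right _ (by positivity))
  · rw [hlogHR] at ha3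
    exact ha3

end Pool.Agent.Helper32.RB
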