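import Mathlib

/-!
# Numbers with few digit changes: the arithmetic core

Let `b ≥ 2`, `β > 1` with `log β / log b` irrational.  The set `ZZ` of the `n` for which `H β^n` is,
up to a factor `1 + O(b^(-Λ y))`, an integer at most `b^(2 y)` times a power of `b`, has density at
most `3 / D₀` if `Λ ≥ 64 b (D₀ + 1) D₀` and `y` is large.
-/

namespace Pool.Agent.Helper32.RB

open Finset

/-! ### Heights of rational numbers -/

/-- The height of a rational number. -/
def ht (r : ℚ) : ℕ := max r.num.natAbs r.den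

theorem one_le_ht (r : ℚ) : 1 ≤ ht r := le_max_of_le_right r.pos

theorem ht_inv (r : ℚ) (hr : 0 < r) : ht r⁻¹ = ht r := by
  unfold ht
  have h1 : (0 : ℤ) < r.num := Rat.num_pos.2 hr
  rw [Rat.num_inv, Rat.den_inv_of_ne_zero hr.ne', Int.sign_eq_one_of_pos h1, one_mul,
    Int.natAbs_natCast, max_comm]

theorem ht_mul (r s : ℚ) : ht (r * s) ≤ ht r * ht s := by
  unfold ht
  apply max_le
  · have h1 : (r * s).num.natAbs ≤ r.num.natAbs * s.num.natAbs := by
      rw [Rat.mul_num]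
      rw [← Int.natAbs_mul]
      exact (Int.natAbs_ediv_le_natAbs _ _)
    exact h1.trans (Nat.mul_le_mul (le_max_left _ _) (le_max_left _ _))
  · have h1 : (r * s).den ≤ r.den * s.den :=
      Nat.le_of_dvd (Nat.mul_pos r.pos s.pos) (Rat.mul_den_dvd r s)
    exact h1.trans (Nat.mul_le_mul (le_max_right _ _) (le_max_right _ _))

theorem ht_pow (r : ℚ) (n : ℕ) : ht (r ^ n) = ht r ^ n := by
  unfold ht
  rw [Rat.num_pow, Rat.den_pow, Int.natAbs_pow]
  rcases le_total r.num.natAbs r.den with h | h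
  · rw [max_eq_right h, max_eq_right (Nat.pow_le_pow_left h n)]
  · rw [max_eq_left h, max_eq_left (Nat.pow_le_pow_left h n)]

theorem ht_div_nat (x y : ℕ) (hy : 0 < y) : ht ((x : ℚ) / y) ≤ max x y := by
  unfold ht
  have hy' : (y : ℤ) ≠ 0 := by exact_mod_cast hy.ne'
  have h1 : ((x : ℚ) / y).num ∣ (x : ℤ) := by
    have := Rat.num_dvd (x : ℤ) hy'
    rwa [Rat.divInt_eq_div, Int.cast_natCast, Int.cast_natCast] at this
  have h2 : ((((x : ℚ) / y).den : ℕ) : ℤ) ∣ (y : ℤ) := by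
    have := Rat.den_dvd (x : ℤ) (y : ℤ)
    rwa [Rat.divInt_eq_div, Int.cast_natCast, Int.cast_natCast] at this
  have h3 : ((x : ℚ) / y).den ≤ y := Nat.le_of_dvd hy (Int.natCast_dvd_natCast.1 h2)
  rcases Nat.eq_zero_or_pos x with rfl | hx
  · simp
    omega
  · have h4 : ((x : ℚ) / y).num.natAbs ≤ x := by
      have := Int.natAbs_dvd_natAbs.2 h1
      rw [Int.natAbs_natCast] at this
      exact Nat.le_of_dvd hx this
    exact max_le_max h4 h3

theorem two_le_ht (r : ℚ) (hr : 0 < r) (h1 : r ≠ 1) : 2 ≤ ht r := by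
  by_contra hlt
  have h2 : ht r = 1 := by have := one_le_ht r; omega
  unfold ht at h2
  have h3 : r.den = 1 := by
    have := r.pos
    have := le_max_right r.num.natAbs r.den
    omega
  have h4 : (0 : ℤ) < r.num := Rat.num_pos.2 hr
  have h5 : r.num = 1 := by
    have := le_max_left r.num.natAbs r.den
    omega
  apply h1
  rw [← Rat.num_div_den r, h3, h5]
  simp

/-! ### Separation -/

theorem sepNat (U V : ℕ) (hU : 0 < U) (hV : 0 < V) (h : U < V) :
    1 / (2 * (U : ℝ)) ≤ Real.log V - Real.log U := by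
  have hU' : (0 : ℝ) < U := by exact_mod_cast hU
  have hV' : (0 : ℝ) < V := by exact_mod_cast hV
  have hUV : (U : ℝ) + 1 ≤ V := by exact_mod_cast h
  have hU1 : (1 : ℝ) ≤ U := by exact_mod_cast hU
  rw [← Real.log_div hV'.ne' hU'.ne']
  have h1 := Real.one_sub_inv_le_log_of_pos (div_pos hV' hU')
  rw [inv_div] at h1
  refine le_trans ?_ h1
  have h2 : (U : ℝ) / V ≤ U / (U + 1) := by
    apply div_le_div_of_nonneg_left hU'.le (by linarith) hUV
  have h3 : 1 / (2 * (U : ℝ)) ≤ 1 - U / (U + 1) := by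
    rw [one_sub_div (by linarith)]
    simp only [add_sub_cancel_left]
    apply one_div_le_one_div_of_le (by linarith)
    linarith
  linarith

theorem sep (b : ℕ) (hb : 2 ≤ b) (j : ℤ) (r : ℚ) (hr : 0 < r)
    (h : |j * Real.log b + Real.log r| < 1 / (2 * (ht r : ℝ))) : (b : ℚ) ^ j * r = 1 := by
  have hnum : (0 : ℤ) < r.num := Rat.num_pos.2 hr
  obtain ⟨X, hX⟩ : ∃ X : ℕ, r.num = X := ⟨r.num.natAbs, by omega⟩
  have hX0 : 0 < X := by omega
  have hY0 : 0 < r.den := r.pos
  have hrX : r = (X : ℚ) / (r.den : ℚ) := by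
    conv_lhs => rw [← Rat.num_div_den r, hX]
    norm_num
  have hb0 : (0 : ℝ) < b := by exact_mod_cast (by omega : 0 < b)
  have hbq : (b : ℚ) ≠ 0 := by exact_mod_cast (by omega : b ≠ 0)
  have hXr : (0 : ℝ) < X := by exact_mod_cast hX0
  have hYr : (0 : ℝ) < r.den := by exact_mod_cast hY0
  have hlog : Real.log (r : ℝ) = Real.log X - Real.log r.den := by
    rw [← Real.log_div hXr.ne' hYr.ne']
    congr 1
    conv_lhs => rw [hrX]
    push_cast
    ring
  have hhX : (X : ℝ) ≤ ht r := by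
    have : X ≤ ht r := by
      unfold ht
      rw [hX]
      exact le_max_left _ _
    exact_mod_cast this
  have hhY : (r.den : ℝ) ≤ ht r := by
    have : r.den ≤ ht r := le_max_right _ _
    exact_mod_cast this
  obtain ⟨n, rfl | rfl⟩ := j.eq_nat_or_neg
  · -- `b^n X` and `Y`
    have hU0 : 0 < b ^ n * X := by positivity
    have hkey : ((n : ℤ) : ℝ) * Real.log b + Real.log r =
        Real.log ((b ^ n * X : ℕ) : ℝ) - Real.log r.den := by
      rw [hlog]
      push_cast
      rw [Real.log_mul (by positivity) (by positivity), Real.log_pow]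
      ring
    rw [hkey] at h
    have heq : b ^ n * X = r.den := by
      rcases lt_trichotomy (b ^ n * X) r.den with hlt | heq | hgt
      · exfalso
        have h1 := sepNat _ _ hU0 hY0 hlt
        rw [abs_sub_comm] at h
        have h2 := (le_abs_self _).trans_lt h
        have h3 : ((b ^ n * X : ℕ) : ℝ) ≤ ht r := by
          refine le_trans ?_ hhY
          exact_mod_cast hlt.le
        have h4 : 1 / (2 * (ht r : ℝ)) ≤ 1 / (2 * ((b ^ n * X : ℕ) : ℝ)) := by
          apply one_div_le_one_div_of_le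
          · have : (0 : ℝ) < ((b ^ n * X : ℕ) : ℝ) := by exact_mod_cast hU0
            linarith
          · linarith
        linarith
      · exact heq
      · exfalso
        have h1 := sepNat _ _ hY0 hU0 hgt
        have h2 := (le_abs_self _).trans_lt h
        have h4 : 1 / (2 * (ht r : ℝ)) ≤ 1 / (2 * (r.den : ℝ)) := by
          apply one_div_le_one_div_of_le
          · linarith
          · linarith
        linarith
    rw [hrX, ← heq]
    push_cast
    rw [zpow_natCast]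
    field_simp
  · -- `X` and `b^n Y`
    have hU0 : 0 < b ^ n * r.den := by positivity
    have hkey : ((-(n : ℤ) : ℤ) : ℝ) * Real.log b + Real.log r =
        Real.log (X : ℝ) - Real.log ((b ^ n * r.den : ℕ) : ℝ) := by
      rw [hlog]
      push_cast
      rw [Real.log_mul (by positivity) (by positivity), Real.log_pow]
      ring
    rw [hkey] at h
    have heq : b ^ n * r.den = X := by
      rcases lt_trichotomy (b ^ n * r.den) X with hlt | heq | hgt
      · exfalso
        have h1 := sepNat _ _ hU0 hX0 hlt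
        have h2 := (le_abs_self _).trans_lt h
        have h3 : ((b ^ n * r.den : ℕ) : ℝ) ≤ ht r := by
          refine le_trans ?_ hhX
          exact_mod_cast hlt.le
        have h4 : 1 / (2 * (ht r : ℝ)) ≤ 1 / (2 * ((b ^ n * r.den : ℕ) : ℝ)) := by
          apply one_div_le_one_div_of_le
          · have : (0 : ℝ) < ((b ^ n * r.den : ℕ) : ℝ) := by exact_mod_cast hU0
            linarith
          · linarith
        linarith
      · exact heq
      · exfalso
        have h1 := sepNat _ _ hX0 hU0 hgt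
        rw [abs_sub_comm] at h
        have h2 := (le_abs_self _).trans_lt h
        have h4 : 1 / (2 * (ht r : ℝ)) ≤ 1 / (2 * (X : ℝ)) := by
          apply one_div_le_one_div_of_le
          · linarith
          · linarith
        linarith
    have hYq : (r.den : ℚ) ≠ 0 := by exact_mod_cast hY0.ne'
    conv_lhs => rw [hrX, ← heq]
    push_cast
    rw [zpow_neg, zpow_natCast]
    field_simp

/-! ### Integers modulo powers of `b` -/

/-- `a` modulo powers of `b`: the number `a^m b^(-v_q(a))`, `m = v_q(b)`, with `q`-adic valuation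
zero. -/
def phi (b q a : ℕ) : ℚ := (a : ℚ) ^ padicValNat q b / (b : ℚ) ^ padicValNat q a

theorem phi_pos (b q a : ℕ) (hb : 0 < b) (ha : 0 < a) : 0 < phi b q a := by
  unfold phi
  have h1 : (0 : ℚ) < a := by exact_mod_cast ha
  have h2 : (0 : ℚ) < b := by exact_mod_cast hb
  positivity

theorem val_phi (b q a : ℕ) [Fact q.Prime] (hb : 0 < b) (ha : 0 < a) :
    padicValRat q (phi b q a) = 0 := by
  unfold phi
  have h1 : (a : ℚ) ≠ 0 := by exact_mod_cast ha.ne'
  have h2 : (b : ℚ) ≠ 0 := by exact_mod_cast hb.ne'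
  rw [padicValRat.div (pow_ne_zero _ h1) (pow_ne_zero _ h2), padicValRat.pow,
    padicValRat.pow, padicValRat.of_nat, padicValRat.of_nat]
  ring

theorem log_phi (b q a : ℕ) (hb : 0 < b) (ha : 0 < a) :
    Real.log (phi b q a : ℝ) =
      padicValNat q b * Real.log a - padicValNat q a * Real.log b := by
  unfold phi
  have h1 : (0 : ℝ) < a := by exact_mod_cast ha
  have h2 : (0 : ℝ) < b := by exact_mod_cast hb
  push_cast
  rw [Real.log_div (by positivity) (by positivity), Real.log_pow, Real.log_pow]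

theorem ht_phi (b q a : ℕ) [Fact q.Prime] (hb : 0 < b) (ha : 0 < a) : ht (phi b q a) ≤ a ^ b := by
  have h1 : phi b q a = ((a ^ padicValNat q b : ℕ) : ℚ) / ((b ^ padicValNat q a : ℕ) : ℚ) := by
    unfold phi
    push_cast
    rfl
  rw [h1]
  refine (ht_div_nat _ _ (by positivity)).trans (max_le ?_ ?_)
  · apply Nat.pow_le_pow_right ha
    exact (padicValNat_le_nat_log b).trans (Nat.log_le_self _ _)
  · have h2 : q ^ padicValNat q a ≤ a := Nat.le_of_dvd ha pow_padicValNat_dvd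
    have h3 : b ≤ q ^ b := (Nat.lt_pow_self (Fact.out : q.Prime).one_lt).le
    calc b ^ padicValNat q a ≤ (q ^ b) ^ padicValNat q a := Nat.pow_le_pow_left h3 _
      _ = (q ^ padicValNat q a) ^ b := by rw [← pow_mul, ← pow_mul, mul_comm]
      _ ≤ a ^ b := Nat.pow_le_pow_left h2 _

/-- The set of the `n` for which `H β^n` is nearly an integer at most `b^(2 y)` times a power
of `b`. -/
def ZZ (b : ℕ) (β H : ℝ) (Λ y : ℕ) : Set ℕ :=
  {n | ∃ (k : ℤ) (a : ℕ), 1 ≤ a ∧ a ≤ b ^ (2 * y) ∧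
    |Real.log H + n * Real.log β - k * Real.log b - Real.log a| ≤ 1 / (b : ℝ) ^ (Λ * y)}

/-- `D θ` is nearly the logarithm of a power of `b` times `ψ`. -/
def Rel (b q : ℕ) (θ ε : ℝ) (B : ℕ) (D : ℕ) (ψ : ℚ) : Prop :=
  0 < ψ ∧ padicValRat q ψ = 0 ∧ ht ψ ≤ B ∧
    ∃ K : ℤ, |(D : ℝ) * θ - K * Real.log b - Real.log (ψ : ℝ)| ≤ ε

theorem rel_of_mem (b q : ℕ) [Fact q.Prime] (hb : 2 ≤ b) (β H : ℝ) (Λ y n D : ℕ)
    (h1 : n ∈ ZZ b β H Λ y) (h2 : n + D ∈ ZZ b β H Λ y) :
    ∃ ψ : ℚ, Rel b q (padicValNat q b * Real.log β) (2 * b / (b : ℝ) ^ (Λ * y))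
      (b ^ (4 * b * y)) D ψ := by
  obtain ⟨k, a, ha1, ha2, ha3⟩ := h1
  obtain ⟨k', a', ha1', ha2', ha3'⟩ := h2
  have hb0 : 0 < b := by omega
  have hp := phi_pos b q a hb0 ha1
  have hp' := phi_pos b q a' hb0 ha1'
  refine ⟨phi b q a' * (phi b q a)⁻¹, mul_pos hp' (inv_pos.2 hp), ?_, ?_, ?_⟩
  · rw [padicValRat.mul hp'.ne' (inv_pos.2 hp).ne', padicValRat.inv, val_phi b q a hb0 ha1,
      val_phi b q a' hb0 ha1']
    simp
  · refine (ht_mul _ _).trans ?_
    rw [ht_inv _ hp]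
    have e1 : ht (phi b q a') ≤ (b ^ (2 * y)) ^ b :=
      (ht_phi b q a' hb0 ha1').trans (Nat.pow_le_pow_left ha2' b)
    have e2 : ht (phi b q a) ≤ (b ^ (2 * y)) ^ b :=
      (ht_phi b q a hb0 ha1).trans (Nat.pow_le_pow_left ha2 b)
    calc ht (phi b q a') * ht (phi b q a) ≤ (b ^ (2 * y)) ^ b * (b ^ (2 * y)) ^ b :=
          Nat.mul_le_mul e1 e2
      _ = b ^ (4 * b * y) := by rw [← pow_mul, ← pow_add]; congr 1; ring
  · refine ⟨(padicValNat q b : ℤ) * (k' - k) + (padicValNat q a' - padicValNat q a), ?_⟩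
    have hlog : Real.log ((phi b q a' * (phi b q a)⁻¹ : ℚ) : ℝ) =
        Real.log (phi b q a' : ℝ) - Real.log (phi b q a : ℝ) := by
      have e1 : (0 : ℝ) < (phi b q a : ℝ) := by exact_mod_cast hp
      have e2 : (0 : ℝ) < (phi b q a' : ℝ) := by exact_mod_cast hp'
      push_cast
      rw [Real.log_mul e2.ne' (inv_pos.2 e1).ne', Real.log_inv]
      ring
    rw [hlog, log_phi b q a hb0 ha1, log_phi b q a' hb0 ha1']
    push_cast at ha3'
    simp only [Int.cast_add, Int.cast_mul, Int.cast_sub, Int.cast_natCast]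
    have hm : (padicValNat q b : ℝ) ≤ b := by
      exact_mod_cast (padicValNat_le_nat_log b).trans (Nat.log_le_self _ _)
    have hm0 : (0 : ℝ) ≤ padicValNat q b := Nat.cast_nonneg _
    have heq : (D : ℝ) * (padicValNat q b * Real.log β) -
        ((padicValNat q b : ℝ) * (k' - k) + (padicValNat q a' - padicValNat q a)) * Real.log b -
        (padicValNat q b * Real.log a' - padicValNat q a' * Real.log b -
          (padicValNat q b * Real.log a - padicValNat q a * Real.log b)) =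
        padicValNat q b * ((Real.log H + (n + D) * Real.log β - k' * Real.log b - Real.log a') -
          (Real.log H + n * Real.log β - k * Real.log b - Real.log a)) := by ring
    rw [heq, abs_mul, abs_of_nonneg hm0]
    have h3 : |(Real.log H + (n + D) * Real.log β - k' * Real.log b - Real.log a') -
          (Real.log H + n * Real.log β - k * Real.log b - Real.log a)| ≤
        2 * (1 / (b : ℝ) ^ (Λ * y)) := by
      refine (abs_sub _ _).trans ?_
      linarith
    calc (padicValNat q b : ℝ) * _ ≤ b * (2 * (1 / (b : ℝ) ^ (Λ * y))) :=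
          mul_le_mul hm h3 (abs_nonneg _) (Nat.cast_nonneg _)
      _ = 2 * b / (b : ℝ) ^ (Λ * y) := by ring

/-- Two relations which are precise compared with the heights are proportional. -/
theorem exact_of_rel (b q : ℕ) [Fact q.Prime] (hb : 2 ≤ b) (hqb : q ∣ b) (θ ε : ℝ) (B B' : ℕ)
    (D D₁ : ℕ) (ψ ψ₁ : ℚ) (h : Rel b q θ ε B D ψ) (h₁ : Rel b q θ ε B' D₁ ψ₁)
    (hs : ((D : ℝ) + D₁) * ε < 1 / (2 * ((ht ψ₁ : ℝ) ^ D * (ht ψ : ℝ) ^ D₁))) :
    ψ₁ ^ D = ψ ^ D₁ := by
  obtain ⟨hp, hv, -, K, hK⟩ := h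
  obtain ⟨hp₁, hv₁, -, K₁, hK₁⟩ := h₁
  have hb0 : 0 < b := by omega
  have hr : 0 < ψ₁ ^ D * (ψ ^ D₁)⁻¹ := mul_pos (pow_pos hp₁ _) (inv_pos.2 (pow_pos hp _))
  have hht : ht (ψ₁ ^ D * (ψ ^ D₁)⁻¹) ≤ ht ψ₁ ^ D * ht ψ ^ D₁ := by
    refine (ht_mul _ _).trans ?_
    rw [ht_inv _ (pow_pos hp _), ht_pow, ht_pow]
  have hP : (0 : ℝ) < (ψ : ℝ) := by exact_mod_cast hp
  have hP₁ : (0 : ℝ) < (ψ₁ : ℝ) := by exact_mod_cast hp₁
  have key := sep b hb (D * K₁ - D₁ * K) (ψ₁ ^ D * (ψ ^ D₁)⁻¹) hr (by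
    have hlog : Real.log ((ψ₁ ^ D * (ψ ^ D₁)⁻¹ : ℚ) : ℝ) =
        D * Real.log (ψ₁ : ℝ) - D₁ * Real.log (ψ : ℝ) := by
      push_cast
      rw [Real.log_mul (by positivity) (by positivity), Real.log_inv, Real.log_pow, Real.log_pow]
      ring
    rw [hlog]
    push_cast
    have heq : ((D : ℝ) * K₁ - D₁ * K) * Real.log b +
        (D * Real.log (ψ₁ : ℝ) - D₁ * Real.log (ψ : ℝ)) =
        D₁ * ((D : ℝ) * θ - K * Real.log b - Real.log (ψ : ℝ)) -
          D * ((D₁ : ℝ) * θ - K₁ * Real.log b - Real.log (ψ₁ : ℝ)) := by ring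
    rw [heq]
    have h1 : |(D₁ : ℝ) * ((D : ℝ) * θ - K * Real.log b - Real.log (ψ : ℝ)) -
          D * ((D₁ : ℝ) * θ - K₁ * Real.log b - Real.log (ψ₁ : ℝ))| ≤ ((D : ℝ) + D₁) * ε := by
      refine (abs_sub _ _).trans ?_
      rw [abs_mul, abs_mul, abs_of_nonneg (Nat.cast_nonneg D : (0 : ℝ) ≤ D),
        abs_of_nonneg (Nat.cast_nonneg D₁ : (0 : ℝ) ≤ D₁)]
      have e1 := mul_le_mul_of_nonneg_left hK (Nat.cast_nonneg D₁ : (0 : ℝ) ≤ D₁)
      have e2 := mul_le_mul_of_nonneg_left hK₁ (Nat.cast_nonneg D : (0 : ℝ) ≤ D)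
      linarith
    refine lt_of_le_of_lt h1 (lt_of_lt_of_le hs ?_)
    have h2 : ((ht (ψ₁ ^ D * (ψ ^ D₁)⁻¹) : ℕ) : ℝ) ≤ (ht ψ₁ : ℝ) ^ D * (ht ψ : ℝ) ^ D₁ := by
      exact_mod_cast hht
    have h3 : (0 : ℝ) < (ht (ψ₁ ^ D * (ψ ^ D₁)⁻¹) : ℕ) := by exact_mod_cast one_le_ht _
    apply one_div_le_one_div_of_le (by linarith)
    linarith)
  -- the valuation at `q`
  have hbq : (b : ℚ) ≠ 0 := by exact_mod_cast hb0.ne'
  have hval : padicValRat q ((b : ℚ) ^ ((D : ℤ) * K₁ - D₁ * K) * (ψ₁ ^ D * (ψ ^ D₁)⁻¹)) = 0 := by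
    rw [key]
    simp
  rw [padicValRat.mul (zpow_ne_zero _ hbq) hr.ne', padicValRat.mul (pow_pos hp₁ _).ne'
    (inv_pos.2 (pow_pos hp _)).ne', padicValRat.inv, padicValRat.pow,
    padicValRat.pow, hv, hv₁, padicValRat.zpow, padicValRat.of_nat] at hval
  have hm : padicValNat q b ≠ 0 := by
    have := one_le_padicValNat_of_dvd hb0.ne' hqb
    omega
  have hj : (D : ℤ) * K₁ - D₁ * K = 0 := by
    simp only [mul_zero, neg_zero, add_zero, mul_eq_zero] at hval
    rcases hval with h | h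
    · exact h
    · exact absurd (by exact_mod_cast h) hm
  rw [hj, zpow_zero, one_mul] at key
  exact (mul_inv_eq_one₀ (pow_pos hp _).ne').1 key

end Pool.Agent.Helper32.RB
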