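import Pool.Agent.Helper32.RB.Core

/-!
# Numbers with few digit changes: the density
-/

namespace Pool.Agent.Helper32.RB

open Finset

theorem card_window (S : Finset ℕ) (N W l : ℕ) (hW : 1 ≤ W) (hS : ∀ n ∈ S, n < N)
    (h : ∀ n ∈ S, ∀ n' ∈ S, n < n' → n' - n < W → n' - n ≤ l) :
    S.card ≤ (N / W + 1) * (l + 1) := by
  classical
  have h1 : S.card ≤ (l + 1) * (S.image (fun n => n / W)).card := by
    apply Finset.card_le_mul_card_image
    intro c hc
    have hne : (S.filter (fun n => n / W = c)).Nonempty := by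
      obtain ⟨n, hn, hnc⟩ := Finset.mem_image.1 hc
      exact ⟨n, Finset.mem_filter.2 ⟨hn, hnc⟩⟩
    set a₀ := (S.filter (fun n => n / W = c)).min' hne with ha₀
    have hmem : a₀ ∈ S.filter (fun n => n / W = c) := Finset.min'_mem _ _
    have hsub : S.filter (fun n => n / W = c) ⊆ Finset.Icc a₀ (a₀ + l) := by
      intro a ha
      have hle : a₀ ≤ a := Finset.min'_le _ _ ha
      rw [Finset.mem_Icc]
      refine ⟨hle, ?_⟩
      rcases hle.eq_or_lt with heq | hlt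
      · omega
      · rw [Finset.mem_filter] at ha hmem
        have h2 : a < (c + 1) * W := by
          rw [← ha.2]
          exact Nat.lt_mul_of_div_lt (Nat.lt_succ_self _) hW
        have h3 : c * W ≤ a₀ := by
          rw [← hmem.2]
          exact Nat.div_mul_le_self _ _
        have h4 := h a₀ hmem.1 a ha.1 hlt (by
          have : (c + 1) * W = c * W + W := by ring
          omega)
        omega
    refine (Finset.card_le_card hsub).trans ?_
    rw [Nat.card_Icc]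
    omega
  have h2 : (S.image (fun n => n / W)).card ≤ N / W + 1 := by
    have : S.image (fun n => n / W) ⊆ range (N / W + 1) := by
      intro c hc
      obtain ⟨n, hn, rfl⟩ := Finset.mem_image.1 hc
      rw [Finset.mem_range]
      have := Nat.div_le_div_right (c := W) (hS n hn).le
      omega
    calc _ ≤ (range (N / W + 1)).card := Finset.card_le_card this
      _ = N / W + 1 := Finset.card_range _
  calc S.card ≤ (l + 1) * (S.image (fun n => n / W)).card := h1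
    _ ≤ (l + 1) * (N / W + 1) := Nat.mul_le_mul_left _ h2
    _ = (N / W + 1) * (l + 1) := mul_comm _ _

theorem irr_gap (b : ℕ) (hb : 2 ≤ b) (β : ℝ) (hirr : Irrational (Real.log β / Real.log b)) (m : ℕ)
    (hm : 1 ≤ m) (D₀ : ℕ) : ∃ δ : ℝ, 0 < δ ∧ ∀ D : ℕ, 1 ≤ D → D ≤ D₀ → ∀ K : ℤ,
      δ ≤ |(D : ℝ) * (m * Real.log β) - K * Real.log b| := by
  have hlb : 0 < Real.log b := Real.log_pos (by exact_mod_cast (by omega : 1 < b))
  induction D₀ with
  | zero => exact ⟨1, one_pos, fun D h1 h2 => by omega⟩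
  | succ D₀ ih =>
    obtain ⟨δ, hδ, h⟩ := ih
    set x : ℝ := ((D₀ + 1 : ℕ) : ℝ) * m * (Real.log β / Real.log b) with hx
    have hxi : Irrational x := by
      have h1 : Irrational ((((D₀ + 1) * m : ℕ) : ℝ) * (Real.log β / Real.log b)) :=
        hirr.natCast_mul (by positivity)
      rwa [Nat.cast_mul] at h1
    have hx0 : 0 < |x - round x| := by
      rw [abs_pos, sub_ne_zero]
      exact hxi.ne_int _
    refine ⟨min δ (|x - round x| * Real.log b), lt_min hδ (mul_pos hx0 hlb), ?_⟩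
    intro D h1 h2 K
    rcases Nat.lt_or_ge D (D₀ + 1) with hlt | hge
    · exact (min_le_left _ _).trans (h D h1 (by omega) K)
    · have hD : D = D₀ + 1 := by omega
      refine (min_le_right _ _).trans ?_
      have h3 : (D : ℝ) * (m * Real.log β) - K * Real.log b = (x - K) * Real.log b := by
        rw [hx, hD]
        field_simp
      rw [h3, abs_mul, abs_of_pos hlb]
      exact mul_le_mul_of_nonneg_right (round_le x K) hlb.le

/-- **The density theorem.** -/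
theorem density (b : ℕ) (hb : 2 ≤ b) (β : ℝ) (hirr : Irrational (Real.log β / Real.log b))
    (D₀ : ℕ) (hD₀ : 1 ≤ D₀) (Λ : ℕ) (hΛ : 64 * b * (D₀ + 1) * D₀ ≤ Λ) :
    ∃ y₀ : ℕ, ∀ y : ℕ, y₀ ≤ y → ∀ (H : ℝ) (N : ℕ), Λ * y * b ≤ N → ∀ S : Finset ℕ,
      (∀ n ∈ S, n < N ∧ n ∈ ZZ b β H Λ y) → S.card * D₀ ≤ 3 * N := by
  have hb0 : 0 < b := by omega
  set q : ℕ := b.minFac with hq
  have : Fact q.Prime := ⟨Nat.minFac_prime (by omega)⟩
  have hqb : q ∣ b := Nat.minFac_dvd b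
  set m : ℕ := padicValNat q b with hm
  have hm1 : 1 ≤ m := one_le_padicValNat_of_dvd hb0.ne' hqb
  obtain ⟨δ, hδ, hgap⟩ := irr_gap b hb β hirr m hm1 D₀
  have hlb : 0 < Real.log b := Real.log_pos (by exact_mod_cast (by omega : 1 < b))
  have hbR : (0 : ℝ) < b := by exact_mod_cast hb0
  have hb1R : (1 : ℝ) < b := by exact_mod_cast (by omega : 1 < b)
  have hΛ1 : 1 ≤ Λ := by
    refine le_trans ?_ hΛ
    have : 0 < 64 * b * (D₀ + 1) * D₀ := by positivity
    omega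
  refine ⟨256 * b ^ 2 + (⌈2 * b / δ⌉₊ + 1), ?_⟩
  intro y hy H N hN S hS
  have hy1 : 1 ≤ y := by omega
  have hyR : (1 : ℝ) ≤ y := by exact_mod_cast hy1
  -- the precision
  obtain ⟨ε, hε⟩ : ∃ ε : ℝ, ε = 2 * b / (b : ℝ) ^ (Λ * y) := ⟨_, rfl⟩
  have hε0 : 0 ≤ ε := by rw [hε]; positivity
  have hΛy : (y : ℝ) < (b : ℝ) ^ (Λ * y) := by
    have h1 : y < b ^ (Λ * y) := by
      calc y ≤ Λ * y := Nat.le_mul_of_pos_left y hΛ1
        _ < b ^ (Λ * y) := Nat.lt_pow_self (by omega)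
    exact_mod_cast h1
  have hεδ : ε < δ := by
    have h1 : 2 * b / δ < y := by
      have h2 := Nat.le_ceil (2 * (b : ℝ) / δ)
      have h3 : ((⌈2 * (b : ℝ) / δ⌉₊ : ℕ) : ℝ) + 1 ≤ y := by
        exact_mod_cast (by omega : ⌈2 * (b : ℝ) / δ⌉₊ + 1 ≤ y)
      linarith
    rw [hε, div_lt_iff₀ (by positivity)]
    rw [div_lt_iff₀ hδ] at h1
    calc 2 * (b : ℝ) < y * δ := h1
      _ ≤ (b : ℝ) ^ (Λ * y) * δ := mul_le_mul_of_nonneg_right hΛy.le hδ.le
      _ = δ * (b : ℝ) ^ (Λ * y) := mul_comm _ _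
  have hND₀ : D₀ ≤ N := by
    calc D₀ ≤ 64 * b * (D₀ + 1) * D₀ := Nat.le_mul_of_pos_left _ (by positivity)
      _ ≤ Λ := hΛ
      _ ≤ Λ * (y * b) := Nat.le_mul_of_pos_right _ (by positivity)
      _ = Λ * y * b := by ring
      _ ≤ N := hN
  by_cases hpair : ∃ n₀ D₁ : ℕ, 1 ≤ D₁ ∧ D₁ ≤ D₀ ∧ n₀ ∈ ZZ b β H Λ y ∧ n₀ + D₁ ∈ ZZ b β H Λ y
  swap
  · -- all gaps are large
    push Not at hpair
    have h1 := card_window S N (D₀ + 1) 0 (by omega) (fun n hn => (hS n hn).1) (by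
      intro n hn n' hn' hlt hW
      exfalso
      refine hpair n (n' - n) (by omega) (by omega) (hS n hn).2 ?_
      have : n + (n' - n) = n' := by omega
      rw [this]
      exact (hS n' hn').2)
    have h2 : N / (D₀ + 1) * D₀ ≤ N := by
      calc N / (D₀ + 1) * D₀ ≤ N / (D₀ + 1) * (D₀ + 1) := Nat.mul_le_mul_left _ (by omega)
        _ ≤ N := Nat.div_mul_le_self _ _
    calc S.card * D₀ ≤ ((N / (D₀ + 1) + 1) * (0 + 1)) * D₀ := Nat.mul_le_mul_right _ h1
      _ = N / (D₀ + 1) * D₀ + D₀ := by ring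
      _ ≤ 3 * N := by omega
  obtain ⟨n₀, D₁, hD₁, hD₁', hn₀, hn₁⟩ := hpair
  obtain ⟨ψ₁, hψ₁⟩ := rel_of_mem b q hb β H Λ y n₀ D₁ hn₀ hn₁
  rw [← hε, ← hm] at hψ₁
  have hψ₁' := hψ₁
  obtain ⟨hp₁, hv₁, hht₁, K₁, hK₁⟩ := hψ₁'
  have hne : ψ₁ ≠ 1 := by
    intro h1
    rw [h1] at hK₁
    norm_num at hK₁
    have := hgap D₁ hD₁ hD₁' K₁
    linarith
  have h2ht : 2 ≤ ht ψ₁ := two_le_ht ψ₁ hp₁ hne
  obtain ⟨h₁, hh₁⟩ : ∃ h₁ : ℝ, h₁ = Real.log (ht ψ₁) := ⟨_, rfl⟩
  have hht₁R : (0 : ℝ) < ht ψ₁ := by exact_mod_cast (by omega : 0 < ht ψ₁)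
  have hlog2 : Real.log 2 ≤ h₁ := by
    rw [hh₁]
    exact Real.log_le_log (by norm_num) (by exact_mod_cast h2ht)
  have hl2 : (1 / 2 : ℝ) ≤ Real.log 2 := by
    have := Real.log_two_gt_d9
    linarith
  have hh0 : 0 < h₁ := by linarith
  -- the height of a relation
  obtain ⟨T, hT⟩ : ∃ T : ℝ, T = ((4 * b * y : ℕ) : ℝ) * Real.log b := ⟨_, rfl⟩
  have hlogB : ∀ ψ : ℚ, ht ψ ≤ b ^ (4 * b * y) → Real.log (ht ψ) ≤ T := by
    intro ψ hψ
    have h1 : (0 : ℝ) < ht ψ := by exact_mod_cast one_le_ht ψ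
    rw [hT, ← Real.log_pow]
    apply Real.log_le_log h1
    exact_mod_cast hψ
  have hh₁T : h₁ ≤ T := by
    rw [hh₁]
    exact hlogB ψ₁ hht₁
  have hT0 : 0 < T := lt_of_lt_of_le hh0 hh₁T
  -- the length of the windows
  obtain ⟨P, hP⟩ : ∃ P : ℝ, P = (Λ : ℝ) * y * Real.log b / 4 := ⟨_, rfl⟩
  have hΛR : (1 : ℝ) ≤ Λ := by exact_mod_cast hΛ1
  have hP0 : 0 < P := by rw [hP]; positivity
  have hlogb : Real.log b ≤ b * Real.log 2 := by
    rw [← Real.log_pow]
    apply Real.log_le_log hbR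
    exact_mod_cast (Nat.lt_pow_self (by omega : 1 < 2)).le
  have hwN : P / h₁ ≤ N := by
    rw [div_le_iff₀ hh0]
    calc P = (Λ : ℝ) * y * Real.log b / 4 := hP
      _ ≤ (Λ : ℝ) * y * (b * Real.log 2) / 4 := by gcongr
      _ ≤ (Λ : ℝ) * y * (b * h₁) / 4 := by gcongr
      _ ≤ (Λ : ℝ) * y * b * h₁ := by
        have : 0 ≤ (Λ : ℝ) * y * b * h₁ := by positivity
        linarith
      _ ≤ N * h₁ := by
        apply mul_le_mul_of_nonneg_right _ hh0.le
        exact_mod_cast hN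
  have hwin := card_window S N (⌊P / h₁⌋₊ + 1) ⌊D₁ * T / h₁⌋₊ (by omega)
    (fun n hn => (hS n hn).1) (by
    intro n hn n' hn' hlt hW
    obtain ⟨D, hD⟩ : ∃ D : ℕ, D = n' - n := ⟨_, rfl⟩
    rw [← hD] at hW ⊢
    have hn'D : n + D = n' := by omega
    have hDw : (D : ℝ) ≤ P / h₁ := (Nat.le_floor_iff (by positivity)).1 (by omega)
    have hDh : (D : ℝ) * h₁ ≤ P := by rwa [le_div_iff₀ hh0] at hDw
    obtain ⟨ψ, hψ⟩ := rel_of_mem b q hb β H Λ y n D (hS n hn).2 (by rw [hn'D]; exact (hS n' hn').2)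
    rw [← hε, ← hm] at hψ
    have hψht := hψ.2.2.1
    have hTψ := hlogB ψ hψht
    have hψR : (0 : ℝ) < ht ψ := by exact_mod_cast one_le_ht ψ
    have hex : ψ₁ ^ D = ψ ^ D₁ := by
      apply exact_of_rel b q hb hqb _ ε _ _ D D₁ ψ ψ₁ hψ hψ₁
      -- the smallness condition
      have e1 : (ht ψ₁ : ℝ) ^ D = Real.exp (D * h₁) := by
        rw [hh₁, ← Real.log_pow, Real.exp_log (by positivity)]
      have e2 : (ht ψ : ℝ) ^ D₁ ≤ Real.exp (P / 4) := by
        have e3 : (ht ψ : ℝ) ^ D₁ = Real.exp (D₁ * Real.log (ht ψ)) := by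
          rw [← Real.log_pow, Real.exp_log (by positivity)]
        rw [e3]
        apply Real.exp_le_exp.2
        calc (D₁ : ℝ) * Real.log (ht ψ) ≤ D₀ * T :=
              mul_le_mul (by exact_mod_cast hD₁') hTψ
                (Real.log_nonneg (by exact_mod_cast one_le_ht ψ)) (Nat.cast_nonneg _)
          _ = (64 * b * D₀) * y * Real.log b / 16 := by rw [hT]; push_cast; ring
          _ ≤ Λ * y * Real.log b / 16 := by
            have : (64 * b * D₀ : ℝ) ≤ Λ := by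
              have h5 : 64 * b * D₀ ≤ Λ := by
                refine le_trans ?_ hΛ
                calc 64 * b * D₀ = 64 * b * 1 * D₀ := by ring
                  _ ≤ 64 * b * (D₀ + 1) * D₀ := by gcongr; omega
              exact_mod_cast h5
            gcongr
          _ = P / 4 := by rw [hP]; ring
      have e4 : (ht ψ₁ : ℝ) ^ D * (ht ψ : ℝ) ^ D₁ ≤ Real.exp (5 / 4 * P) := by
        rw [e1]
        calc Real.exp (D * h₁) * (ht ψ : ℝ) ^ D₁ ≤ Real.exp P * Real.exp (P / 4) := by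
              gcongr
          _ = Real.exp (5 / 4 * P) := by rw [← Real.exp_add]; congr 1; ring
      have e5 : ((D : ℝ) + D₁) ≤ 2 * ((Λ : ℝ) * y * b) := by
        have e6 : (D : ℝ) ≤ (Λ : ℝ) * y * b := by
          refine hDw.trans ?_
          rw [div_le_iff₀ hh0]
          calc P = (Λ : ℝ) * y * Real.log b / 4 := hP
            _ ≤ (Λ : ℝ) * y * (b * Real.log 2) / 4 := by gcongr
            _ ≤ (Λ : ℝ) * y * (b * h₁) / 4 := by gcongr
            _ ≤ (Λ : ℝ) * y * b * h₁ := by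
              have : 0 ≤ (Λ : ℝ) * y * b * h₁ := by positivity
              linarith
        have e7 : (D₁ : ℝ) ≤ (Λ : ℝ) * y * b := by
          have : D₁ ≤ Λ * y * b := by
            calc D₁ ≤ D₀ := hD₁'
              _ ≤ 64 * b * (D₀ + 1) * D₀ := Nat.le_mul_of_pos_left _ (by positivity)
              _ ≤ Λ := hΛ
              _ ≤ Λ * (y * b) := Nat.le_mul_of_pos_right _ (by positivity)
              _ = Λ * y * b := by ring
          exact_mod_cast this
        linarith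
      have e8 : ε = 2 * b * Real.exp (-(4 * P)) := by
        rw [hε, hP, Real.exp_neg, div_eq_mul_inv]
        congr 2
        have : 4 * ((Λ : ℝ) * y * Real.log b / 4) = ((Λ * y : ℕ) : ℝ) * Real.log b := by
          push_cast; ring
        rw [this, ← Real.log_pow, Real.exp_log (by positivity)]
      have hu : 8 * (b : ℝ) ^ 2 * ((Λ : ℝ) * y) < Real.exp ((Λ : ℝ) * y / 4) := by
        have hu0 : (256 : ℝ) * b ^ 2 ≤ (Λ : ℝ) * y := by
          have h6 : 256 * b ^ 2 ≤ Λ * y := by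
            calc 256 * b ^ 2 ≤ y := by omega
              _ ≤ Λ * y := Nat.le_mul_of_pos_left y hΛ1
          exact_mod_cast h6
        have hu1 : (0 : ℝ) ≤ (Λ : ℝ) * y := by positivity
        have h7 := Real.quadratic_le_exp_of_nonneg (by positivity : (0 : ℝ) ≤ (Λ : ℝ) * y / 4)
        nlinarith
      have hPu : (Λ : ℝ) * y / 4 ≤ 11 / 4 * P := by
        have h8 : (1 / 2 : ℝ) ≤ Real.log b := by
          refine hl2.trans ?_
          exact Real.log_le_log (by norm_num) (by exact_mod_cast hb)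
        have h9 : (0 : ℝ) ≤ (Λ : ℝ) * y := by positivity
        rw [hP]
        nlinarith
      calc ((D : ℝ) + D₁) * ε ≤ 2 * ((Λ : ℝ) * y * b) * ε :=
            mul_le_mul_of_nonneg_right e5 hε0
        _ = (4 * (b : ℝ) ^ 2 * ((Λ : ℝ) * y)) * Real.exp (-(4 * P)) := by rw [e8]; ring
        _ < (1 / 2 * Real.exp (11 / 4 * P)) * Real.exp (-(4 * P)) := by
          apply mul_lt_mul_of_pos_right _ (Real.exp_pos _)
          have h10 : Real.exp ((Λ : ℝ) * y / 4) ≤ Real.exp (11 / 4 * P) := Real.exp_le_exp.2 hPu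
          linarith
        _ = 1 / 2 * Real.exp (-(5 / 4 * P)) := by
          rw [mul_assoc, ← Real.exp_add]
          congr 2
          ring
        _ = 1 / (2 * Real.exp (5 / 4 * P)) := by
          rw [Real.exp_neg]
          field_simp
        _ ≤ 1 / (2 * ((ht ψ₁ : ℝ) ^ D * (ht ψ : ℝ) ^ D₁)) := by
          apply one_div_le_one_div_of_le (by positivity)
          linarith
    -- the heights
    have hhts : (D : ℝ) * h₁ = D₁ * Real.log (ht ψ) := by
      have h5 := congrArg ht hex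
      rw [ht_pow, ht_pow] at h5
      rw [hh₁, ← Real.log_pow, ← Real.log_pow]
      congr 1
      exact_mod_cast h5
    rw [Nat.le_floor_iff (by positivity), le_div_iff₀ hh0, hhts]
    exact mul_le_mul_of_nonneg_left hTψ (Nat.cast_nonneg _))
  -- the count
  have hw0 : 0 < P / h₁ := by positivity
  have hc1 : ((N / (⌊P / h₁⌋₊ + 1) + 1 : ℕ) : ℝ) ≤ 2 * N / (P / h₁) := by
    have h5 : ((N / (⌊P / h₁⌋₊ + 1) : ℕ) : ℝ) ≤ N / (P / h₁) := by
      refine (Nat.cast_div_le).trans ?_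
      apply div_le_div_of_nonneg_left (Nat.cast_nonneg _) hw0
      push_cast
      exact (Nat.lt_floor_add_one _).le
    have h6 : 1 ≤ N / (P / h₁) := by
      rw [le_div_iff₀ hw0]
      linarith
    push_cast
    calc ((N / (⌊P / h₁⌋₊ + 1) : ℕ) : ℝ) + 1 ≤ N / (P / h₁) + N / (P / h₁) := by linarith
      _ = 2 * N / (P / h₁) := by ring
  have hc2 : ((⌊D₁ * T / h₁⌋₊ + 1 : ℕ) : ℝ) ≤ (D₀ + 1) * T / h₁ := by
    have h5 : ((⌊D₁ * T / h₁⌋₊ : ℕ) : ℝ) ≤ D₁ * T / h₁ := Nat.floor_le (by positivity)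
    have h6 : 1 ≤ T / h₁ := by
      rw [le_div_iff₀ hh0]
      linarith
    have h7 : (D₁ : ℝ) ≤ D₀ := by exact_mod_cast hD₁'
    push_cast
    calc ((⌊D₁ * T / h₁⌋₊ : ℕ) : ℝ) + 1 ≤ D₁ * T / h₁ + T / h₁ := by linarith
      _ ≤ D₀ * T / h₁ + T / h₁ := by gcongr
      _ = (D₀ + 1) * T / h₁ := by ring
  have hfin : ((S.card * D₀ : ℕ) : ℝ) ≤ 3 * N := by
    have h5 : (S.card : ℝ) ≤ 2 * N / (P / h₁) * ((D₀ + 1) * T / h₁) := by
      calc (S.card : ℝ) ≤ (((N / (⌊P / h₁⌋₊ + 1) + 1) * (⌊D₁ * T / h₁⌋₊ + 1) : ℕ) : ℝ) := by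
            exact_mod_cast hwin
        _ = ((N / (⌊P / h₁⌋₊ + 1) + 1 : ℕ) : ℝ) * ((⌊D₁ * T / h₁⌋₊ + 1 : ℕ) : ℝ) := by
            push_cast; ring
        _ ≤ _ := mul_le_mul hc1 hc2 (Nat.cast_nonneg _) (by positivity)
    have h6 : 2 * (N : ℝ) / (P / h₁) * ((D₀ + 1) * T / h₁) = 32 * N * b * (D₀ + 1) / Λ := by
      rw [hP, hT]
      have : (0 : ℝ) < y := by linarith
      have : (0 : ℝ) < Λ := by linarith
      push_cast
      field_simp
      ring
    rw [h6] at h5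
    have h7 : (32 * N * b * (D₀ + 1) / Λ : ℝ) * D₀ ≤ 3 * N := by
      rw [div_mul_eq_mul_div, div_le_iff₀ (by linarith)]
      have h8 : (64 * b * (D₀ + 1) * D₀ : ℝ) ≤ Λ := by exact_mod_cast hΛ
      have h9 : (0 : ℝ) ≤ N := Nat.cast_nonneg _
      nlinarith
    push_cast
    calc (S.card : ℝ) * D₀ ≤ (32 * N * b * (D₀ + 1) / Λ : ℝ) * D₀ := by gcongr
      _ ≤ 3 * N := h7
  exact_mod_cast hfin

end Pool.Agent.Helper32.RB
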