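import Pool.Agent.Helper32.RB.Dens

/-!
# Numbers with few digit changes: the density, with polynomial factors

`ZR` is the set of the `n` for which `H R_n β^n` is nearly an integer at most `b^(2 y)` times a
power of `b`, where the `R_n` are natural numbers at most `b^(2 y)`.
-/

namespace Pool.Agent.Helper32.RB

open Finset

/-- **The density theorem**, abstract form. -/
theorem density_abs (b : ℕ) (hb : 2 ≤ b) (β : ℝ) (hirr : Irrational (Real.log β / Real.log b))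
    (D₀ : ℕ) (hD₀ : 1 ≤ D₀) (B : ℕ) (hB : 1 ≤ B) (Λ : ℕ) (hΛ : 64 * B * (D₀ + 1) * D₀ ≤ Λ) :
    ∃ y₀ : ℕ, ∀ y : ℕ, y₀ ≤ y → ∀ (Z : Set ℕ),
      (∀ n D : ℕ, n ∈ Z → n + D ∈ Z → ∃ ψ : ℚ, Rel b b.minFac
        (padicValNat b.minFac b * Real.log β) (2 * b / (b : ℝ) ^ (Λ * y)) (b ^ (4 * B * y)) D ψ) →
      ∀ (N : ℕ), Λ * y * b ≤ N → ∀ S : Finset ℕ,
      (∀ n ∈ S, n < N ∧ n ∈ Z) → S.card * D₀ ≤ 3 * N := by
  have hb0 : 0 < b := by omega
  set q : ℕ := b.minFac with hq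
  have : Fact q.Prime := ⟨Nat.minFac_prime (by omega)⟩
  have hqb : q ∣ b := Nat.minFac_dvd b
  set m : ℕ := padicValNat q b with hm
  have hm1 : 1 ≤ m := one_le_padicValNat_of_dvd hb0.ne' hqb
  obtain ⟨δ, hδ, hgap⟩ := irr_gap b hb β hirr m hm1 D₀
  have hlb : 0 < Real.log b := Real.log_pos (by exact_mod_cast (by omega : 1 < b))
  have hbR : (0 : ℝ) < b := by exact_mod_cast hb0
  have hb1R : (1 : ℝ) < b := by exact_mod_cast (by omega : 1 < b)
  have hΛ1 : 1 ≤ Λ := by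
    refine le_trans ?_ hΛ
    have : 0 < 64 * B * (D₀ + 1) * D₀ := by positivity
    omega
  refine ⟨256 * b ^ 2 + (⌈2 * b / δ⌉₊ + 1), ?_⟩
  intro y hy Z hrel N hN S hS
  have hy1 : 1 ≤ y := by omega
  have hyR : (1 : ℝ) ≤ y := by exact_mod_cast hy1
  -- the precision
  obtain ⟨ε, hε⟩ : ∃ ε : ℝ, ε = 2 * b / (b : ℝ) ^ (Λ * y) := ⟨_, rfl⟩
  have hε0 : 0 ≤ ε := by rw [hε]; positivity
  have hΛy : (y : ℝ) < (b : ℝ) ^ (Λ * y) := by
    have h1 : y < b ^ (Λ * y) := by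
      calc y ≤ Λ * y := Nat.le_mul_of_pos_left y hΛ1
        _ < b ^ (Λ * y) := Nat.lt_pow_self (by omega)
    exact_mod_cast h1
  have hεδ : ε < δ := by
    have h1 : 2 * b / δ < y := by
      have h2 := Nat.le_ceil (2 * (b : ℝ) / δ)
      have h3 : ((⌈2 * (b : ℝ) / δ⌉₊ : ℕ) : ℝ) + 1 ≤ y := by
        exact_mod_cast (by omega : ⌈2 * (b : ℝ) / δ⌉₊ + 1 ≤ y)
      linarith
    rw [hε, div_lt_iff₀ (by positivity)]
    rw [div_lt_iff₀ hδ] at h1
    calc 2 * (b : ℝ) < y * δ := h1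
      _ ≤ (b : ℝ) ^ (Λ * y) * δ := mul_le_mul_of_nonneg_right hΛy.le hδ.le
      _ = δ * (b : ℝ) ^ (Λ * y) := mul_comm _ _
  have hND₀ : D₀ ≤ N := by
    calc D₀ ≤ 64 * B * (D₀ + 1) * D₀ := Nat.le_mul_of_pos_left _ (by positivity)
      _ ≤ Λ := hΛ
      _ ≤ Λ * (y * b) := Nat.le_mul_of_pos_right _ (by positivity)
      _ = Λ * y * b := by ring
      _ ≤ N := hN
  by_cases hpair : ∃ n₀ D₁ : ℕ, 1 ≤ D₁ ∧ D₁ ≤ D₀ ∧ n₀ ∈ Z ∧ n₀ + D₁ ∈ Z
  swap
  · -- all gaps are large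
    push Not at hpair
    have h1 := card_window S N (D₀ + 1) 0 (by omega) (fun n hn => (hS n hn).1) (by
      intro n hn n' hn' hlt hW
      exfalso
      refine hpair n (n' - n) (by omega) (by omega) (hS n hn).2 ?_
      have : n + (n' - n) = n' := by omega
      rw [this]
      exact (hS n' hn').2)
    have h2 : N / (D₀ + 1) * D₀ ≤ N := by
      calc N / (D₀ + 1) * D₀ ≤ N / (D₀ + 1) * (D₀ + 1) := Nat.mul_le_mul_left _ (by omega)
        _ ≤ N := Nat.div_mul_le_self _ _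
    calc S.card * D₀ ≤ ((N / (D₀ + 1) + 1) * (0 + 1)) * D₀ := Nat.mul_le_mul_right _ h1
      _ = N / (D₀ + 1) * D₀ + D₀ := by ring
      _ ≤ 3 * N := by omega
  obtain ⟨n₀, D₁, hD₁, hD₁', hn₀, hn₁⟩ := hpair
  obtain ⟨ψ₁, hψ₁⟩ := hrel n₀ D₁ hn₀ hn₁
  rw [← hε] at hψ₁
  have hψ₁' := hψ₁
  obtain ⟨hp₁, hv₁, hht₁, K₁, hK₁⟩ := hψ₁'
  have hne : ψ₁ ≠ 1 := by
    intro h1
    rw [h1] at hK₁
    norm_num at hK₁
    have := hgap D₁ hD₁ hD₁' K₁
    linarith
  have h2ht : 2 ≤ ht ψ₁ := two_le_ht ψ₁ hp₁ hne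
  obtain ⟨h₁, hh₁⟩ : ∃ h₁ : ℝ, h₁ = Real.log (ht ψ₁) := ⟨_, rfl⟩
  have hht₁R : (0 : ℝ) < ht ψ₁ := by exact_mod_cast (by omega : 0 < ht ψ₁)
  have hlog2 : Real.log 2 ≤ h₁ := by
    rw [hh₁]
    exact Real.log_le_log (by norm_num) (by exact_mod_cast h2ht)
  have hl2 : (1 / 2 : ℝ) ≤ Real.log 2 := by
    have := Real.log_two_gt_d9
    linarith
  have hh0 : 0 < h₁ := by linarith
  -- the height of a relation
  obtain ⟨T, hT⟩ : ∃ T : ℝ, T = ((4 * B * y : ℕ) : ℝ) * Real.log b := ⟨_, rfl⟩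
  have hlogB : ∀ ψ : ℚ, ht ψ ≤ b ^ (4 * B * y) → Real.log (ht ψ) ≤ T := by
    intro ψ hψ
    have h1 : (0 : ℝ) < ht ψ := by exact_mod_cast one_le_ht ψ
    rw [hT, ← Real.log_pow]
    apply Real.log_le_log h1
    exact_mod_cast hψ
  have hh₁T : h₁ ≤ T := by
    rw [hh₁]
    exact hlogB ψ₁ hht₁
  have hT0 : 0 < T := lt_of_lt_of_le hh0 hh₁T
  -- the length of the windows
  obtain ⟨P, hP⟩ : ∃ P : ℝ, P = (Λ : ℝ) * y * Real.log b / 4 := ⟨_, rfl⟩
  have hΛR : (1 : ℝ) ≤ Λ := by exact_mod_cast hΛ1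
  have hP0 : 0 < P := by rw [hP]; positivity
  have hlogb : Real.log b ≤ b * Real.log 2 := by
    rw [← Real.log_pow]
    apply Real.log_le_log hbR
    exact_mod_cast (Nat.lt_pow_self (by omega : 1 < 2)).le
  have hwN : P / h₁ ≤ N := by
    rw [div_le_iff₀ hh0]
    calc P = (Λ : ℝ) * y * Real.log b / 4 := hP
      _ ≤ (Λ : ℝ) * y * (b * Real.log 2) / 4 := by gcongr
      _ ≤ (Λ : ℝ) * y * (b * h₁) / 4 := by gcongr
      _ ≤ (Λ : ℝ) * y * b * h₁ := by
        have : 0 ≤ (Λ : ℝ) * y * b * h₁ := by positivity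
        linarith
      _ ≤ N * h₁ := by
        apply mul_le_mul_of_nonneg_right _ hh0.le
        exact_mod_cast hN
  have hwin := card_window S N (⌊P / h₁⌋₊ + 1) ⌊D₁ * T / h₁⌋₊ (by omega)
    (fun n hn => (hS n hn).1) (by
    intro n hn n' hn' hlt hW
    obtain ⟨D, hD⟩ : ∃ D : ℕ, D = n' - n := ⟨_, rfl⟩
    rw [← hD] at hW ⊢
    have hn'D : n + D = n' := by omega
    have hDw : (D : ℝ) ≤ P / h₁ := (Nat.le_floor_iff (by positivity)).1 (by omega)
    have hDh : (D : ℝ) * h₁ ≤ P := by rwa [le_div_iff₀ hh0] at hDw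
    obtain ⟨ψ, hψ⟩ := hrel n D (hS n hn).2 (by rw [hn'D]; exact (hS n' hn').2)
    rw [← hε] at hψ
    have hψht := hψ.2.2.1
    have hTψ := hlogB ψ hψht
    have hψR : (0 : ℝ) < ht ψ := by exact_mod_cast one_le_ht ψ
    have hex : ψ₁ ^ D = ψ ^ D₁ := by
      apply exact_of_rel b q hb hqb _ ε _ _ D D₁ ψ ψ₁ hψ hψ₁
      -- the smallness condition
      have e1 : (ht ψ₁ : ℝ) ^ D = Real.exp (D * h₁) := by
        rw [hh₁, ← Real.log_pow, Real.exp_log (by positivity)]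
      have e2 : (ht ψ : ℝ) ^ D₁ ≤ Real.exp (P / 4) := by
        have e3 : (ht ψ : ℝ) ^ D₁ = Real.exp (D₁ * Real.log (ht ψ)) := by
          rw [← Real.log_pow, Real.exp_log (by positivity)]
        rw [e3]
        apply Real.exp_le_exp.2
        calc (D₁ : ℝ) * Real.log (ht ψ) ≤ D₀ * T :=
              mul_le_mul (by exact_mod_cast hD₁') hTψ
                (Real.log_nonneg (by exact_mod_cast one_le_ht ψ)) (Nat.cast_nonneg _)
          _ = (64 * B * D₀) * y * Real.log b / 16 := by rw [hT]; push_cast; ring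
          _ ≤ Λ * y * Real.log b / 16 := by
            have : (64 * B * D₀ : ℝ) ≤ Λ := by
              have h5 : 64 * B * D₀ ≤ Λ := by
                refine le_trans ?_ hΛ
                calc 64 * B * D₀ = 64 * B * 1 * D₀ := by ring
                  _ ≤ 64 * B * (D₀ + 1) * D₀ := by gcongr; omega
              exact_mod_cast h5
            gcongr
          _ = P / 4 := by rw [hP]; ring
      have e4 : (ht ψ₁ : ℝ) ^ D * (ht ψ : ℝ) ^ D₁ ≤ Real.exp (5 / 4 * P) := by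
        rw [e1]
        calc Real.exp (D * h₁) * (ht ψ : ℝ) ^ D₁ ≤ Real.exp P * Real.exp (P / 4) := by
              gcongr
          _ = Real.exp (5 / 4 * P) := by rw [← Real.exp_add]; congr 1; ring
      have e5 : ((D : ℝ) + D₁) ≤ 2 * ((Λ : ℝ) * y * b) := by
        have e6 : (D : ℝ) ≤ (Λ : ℝ) * y * b := by
          refine hDw.trans ?_
          rw [div_le_iff₀ hh0]
          calc P = (Λ : ℝ) * y * Real.log b / 4 := hP
            _ ≤ (Λ : ℝ) * y * (b * Real.log 2) / 4 := by gcongr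
            _ ≤ (Λ : ℝ) * y * (b * h₁) / 4 := by gcongr
            _ ≤ (Λ : ℝ) * y * b * h₁ := by
              have : 0 ≤ (Λ : ℝ) * y * b * h₁ := by positivity
              linarith
        have e7 : (D₁ : ℝ) ≤ (Λ : ℝ) * y * b := by
          have : D₁ ≤ Λ * y * b := by
            calc D₁ ≤ D₀ := hD₁'
              _ ≤ 64 * B * (D₀ + 1) * D₀ := Nat.le_mul_of_pos_left _ (by positivity)
              _ ≤ Λ := hΛ
              _ ≤ Λ * (y * b) := Nat.le_mul_of_pos_right _ (by positivity)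
              _ = Λ * y * b := by ring
          exact_mod_cast this
        linarith
      have e8 : ε = 2 * b * Real.exp (-(4 * P)) := by
        rw [hε, hP, Real.exp_neg, div_eq_mul_inv]
        congr 2
        have : 4 * ((Λ : ℝ) * y * Real.log b / 4) = ((Λ * y : ℕ) : ℝ) * Real.log b := by
          push_cast; ring
        rw [this, ← Real.log_pow, Real.exp_log (by positivity)]
      have hu : 8 * (b : ℝ) ^ 2 * ((Λ : ℝ) * y) < Real.exp ((Λ : ℝ) * y / 4) := by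
        have hu0 : (256 : ℝ) * b ^ 2 ≤ (Λ : ℝ) * y := by
          have h6 : 256 * b ^ 2 ≤ Λ * y := by
            calc 256 * b ^ 2 ≤ y := by omega
              _ ≤ Λ * y := Nat.le_mul_of_pos_left y hΛ1
          exact_mod_cast h6
        have hu1 : (0 : ℝ) ≤ (Λ : ℝ) * y := by positivity
        have h7 := Real.quadratic_le_exp_of_nonneg (by positivity : (0 : ℝ) ≤ (Λ : ℝ) * y / 4)
        nlinarith
      have hPu : (Λ : ℝ) * y / 4 ≤ 11 / 4 * P := by
        have h8 : (1 / 2 : ℝ) ≤ Real.log b := by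
          refine hl2.trans ?_
          exact Real.log_le_log (by norm_num) (by exact_mod_cast hb)
        have h9 : (0 : ℝ) ≤ (Λ : ℝ) * y := by positivity
        rw [hP]
        nlinarith
      calc ((D : ℝ) + D₁) * ε ≤ 2 * ((Λ : ℝ) * y * b) * ε :=
            mul_le_mul_of_nonneg_right e5 hε0
        _ = (4 * (b : ℝ) ^ 2 * ((Λ : ℝ) * y)) * Real.exp (-(4 * P)) := by rw [e8]; ring
        _ < (1 / 2 * Real.exp (11 / 4 * P)) * Real.exp (-(4 * P)) := by
          apply mul_lt_mul_of_pos_right _ (Real.exp_pos _)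
          have h10 : Real.exp ((Λ : ℝ) * y / 4) ≤ Real.exp (11 / 4 * P) := Real.exp_le_exp.2 hPu
          linarith
        _ = 1 / 2 * Real.exp (-(5 / 4 * P)) := by
          rw [mul_assoc, ← Real.exp_add]
          congr 2
          ring
        _ = 1 / (2 * Real.exp (5 / 4 * P)) := by
          rw [Real.exp_neg]
          field_simp
        _ ≤ 1 / (2 * ((ht ψ₁ : ℝ) ^ D * (ht ψ : ℝ) ^ D₁)) := by
          apply one_div_le_one_div_of_le (by positivity)
          linarith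
    -- the heights
    have hhts : (D : ℝ) * h₁ = D₁ * Real.log (ht ψ) := by
      have h5 := congrArg ht hex
      rw [ht_pow, ht_pow] at h5
      rw [hh₁, ← Real.log_pow, ← Real.log_pow]
      congr 1
      exact_mod_cast h5
    rw [Nat.le_floor_iff (by positivity), le_div_iff₀ hh0, hhts]
    exact mul_le_mul_of_nonneg_left hTψ (Nat.cast_nonneg _))
  -- the count
  have hw0 : 0 < P / h₁ := by positivity
  have hc1 : ((N / (⌊P / h₁⌋₊ + 1) + 1 : ℕ) : ℝ) ≤ 2 * N / (P / h₁) := by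
    have h5 : ((N / (⌊P / h₁⌋₊ + 1) : ℕ) : ℝ) ≤ N / (P / h₁) := by
      refine (Nat.cast_div_le).trans ?_
      apply div_le_div_of_nonneg_left (Nat.cast_nonneg _) hw0
      push_cast
      exact (Nat.lt_floor_add_one _).le
    have h6 : 1 ≤ N / (P / h₁) := by
      rw [le_div_iff₀ hw0]
      linarith
    push_cast
    calc ((N / (⌊P / h₁⌋₊ + 1) : ℕ) : ℝ) + 1 ≤ N / (P / h₁) + N / (P / h₁) := by linarith
      _ = 2 * N / (P / h₁) := by ring
  have hc2 : ((⌊D₁ * T / h₁⌋₊ + 1 : ℕ) : ℝ) ≤ (D₀ + 1) * T / h₁ := by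
    have h5 : ((⌊D₁ * T / h₁⌋₊ : ℕ) : ℝ) ≤ D₁ * T / h₁ := Nat.floor_le (by positivity)
    have h6 : 1 ≤ T / h₁ := by
      rw [le_div_iff₀ hh0]
      linarith
    have h7 : (D₁ : ℝ) ≤ D₀ := by exact_mod_cast hD₁'
    push_cast
    calc ((⌊D₁ * T / h₁⌋₊ : ℕ) : ℝ) + 1 ≤ D₁ * T / h₁ + T / h₁ := by linarith
      _ ≤ D₀ * T / h₁ + T / h₁ := by gcongr
      _ = (D₀ + 1) * T / h₁ := by ring
  have hfin : ((S.card * D₀ : ℕ) : ℝ) ≤ 3 * N := by
    have h5 : (S.card : ℝ) ≤ 2 * N / (P / h₁) * ((D₀ + 1) * T / h₁) := by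
      calc (S.card : ℝ) ≤ (((N / (⌊P / h₁⌋₊ + 1) + 1) * (⌊D₁ * T / h₁⌋₊ + 1) : ℕ) : ℝ) := by
            exact_mod_cast hwin
        _ = ((N / (⌊P / h₁⌋₊ + 1) + 1 : ℕ) : ℝ) * ((⌊D₁ * T / h₁⌋₊ + 1 : ℕ) : ℝ) := by
            push_cast; ring
        _ ≤ _ := mul_le_mul hc1 hc2 (Nat.cast_nonneg _) (by positivity)
    have h6 : 2 * (N : ℝ) / (P / h₁) * ((D₀ + 1) * T / h₁) = 32 * N * B * (D₀ + 1) / Λ := by
      rw [hP, hT]
      have : (0 : ℝ) < y := by linarith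
      have : (0 : ℝ) < Λ := by linarith
      push_cast
      field_simp
      ring
    rw [h6] at h5
    have h7 : (32 * N * B * (D₀ + 1) / Λ : ℝ) * D₀ ≤ 3 * N := by
      rw [div_mul_eq_mul_div, div_le_iff₀ (by linarith)]
      have h8 : (64 * B * (D₀ + 1) * D₀ : ℝ) ≤ Λ := by exact_mod_cast hΛ
      have h9 : (0 : ℝ) ≤ N := Nat.cast_nonneg _
      nlinarith
    push_cast
    calc (S.card : ℝ) * D₀ ≤ (32 * N * B * (D₀ + 1) / Λ : ℝ) * D₀ := by gcongr
      _ ≤ 3 * N := h7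
  exact_mod_cast hfin

/-- The set of the `n` for which `H R_n β^n` is nearly an integer at most `b^(2 y)` times a power
of `b`, and `1 ≤ R_n ≤ b^(2 y)`. -/
def ZR (b : ℕ) (β H : ℝ) (R : ℕ → ℕ) (Λ y : ℕ) : Set ℕ :=
  {n | 1 ≤ R n ∧ R n ≤ b ^ (2 * y) ∧ ∃ (k : ℤ) (a : ℕ), 1 ≤ a ∧ a ≤ b ^ (2 * y) ∧
    |Real.log H + Real.log (R n) + n * Real.log β - k * Real.log b - Real.log a| ≤
      1 / (b : ℝ) ^ (Λ * y)}

theorem rel_of_memR (b q : ℕ) [Fact q.Prime] (hb : 2 ≤ b) (β H : ℝ) (R : ℕ → ℕ) (Λ y n D : ℕ)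
    (h1 : n ∈ ZR b β H R Λ y) (h2 : n + D ∈ ZR b β H R Λ y) :
    ∃ ψ : ℚ, Rel b q (padicValNat q b * Real.log β) (2 * b / (b : ℝ) ^ (Λ * y))
      (b ^ (4 * (2 * b) * y)) D ψ := by
  obtain ⟨hr1, hr2, k, a, ha1, ha2, ha3⟩ := h1
  obtain ⟨hr1', hr2', k', a', ha1', ha2', ha3'⟩ := h2
  have hb0 : 0 < b := by omega
  have hp := phi_pos b q a hb0 ha1
  have hp' := phi_pos b q a' hb0 ha1'
  have hpr := phi_pos b q (R n) hb0 hr1
  have hpr' := phi_pos b q (R (n + D)) hb0 hr1'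
  have hP : 0 < phi b q a' * phi b q (R n) := mul_pos hp' hpr
  have hQ : 0 < phi b q a * phi b q (R (n + D)) := mul_pos hp hpr'
  refine ⟨(phi b q a' * phi b q (R n)) * (phi b q a * phi b q (R (n + D)))⁻¹,
    mul_pos hP (inv_pos.2 hQ), ?_, ?_, ?_⟩
  · rw [padicValRat.mul hP.ne' (inv_pos.2 hQ).ne', padicValRat.inv,
      padicValRat.mul hp'.ne' hpr.ne', padicValRat.mul hp.ne' hpr'.ne',
      val_phi b q a hb0 ha1, val_phi b q a' hb0 ha1', val_phi b q _ hb0 hr1,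
      val_phi b q _ hb0 hr1']
    simp
  · have e0 : ∀ x : ℕ, 0 < x → x ≤ b ^ (2 * y) → ht (phi b q x) ≤ (b ^ (2 * y)) ^ b :=
      fun x hx hx' => (ht_phi b q x hb0 hx).trans (Nat.pow_le_pow_left hx' b)
    refine (ht_mul _ _).trans ?_
    rw [ht_inv _ hQ]
    calc ht (phi b q a' * phi b q (R n)) * ht (phi b q a * phi b q (R (n + D))) ≤
          ((b ^ (2 * y)) ^ b * (b ^ (2 * y)) ^ b) * ((b ^ (2 * y)) ^ b * (b ^ (2 * y)) ^ b) := by
          apply Nat.mul_le_mul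
          · exact (ht_mul _ _).trans (Nat.mul_le_mul (e0 _ ha1' ha2') (e0 _ hr1 hr2))
          · exact (ht_mul _ _).trans (Nat.mul_le_mul (e0 _ ha1 ha2) (e0 _ hr1' hr2'))
      _ = b ^ (4 * (2 * b) * y) := by
          rw [← pow_mul, ← pow_add, ← pow_add]
          congr 1
          ring
  · refine ⟨(padicValNat q b : ℤ) * (k' - k) + (padicValNat q a' - padicValNat q a) -
      (padicValNat q (R (n + D)) - padicValNat q (R n)), ?_⟩
    have hlog : Real.log (((phi b q a' * phi b q (R n)) *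
        (phi b q a * phi b q (R (n + D)))⁻¹ : ℚ) : ℝ) =
        Real.log (phi b q a' : ℝ) + Real.log (phi b q (R n) : ℝ) -
          (Real.log (phi b q a : ℝ) + Real.log (phi b q (R (n + D)) : ℝ)) := by
      have e1 : (0 : ℝ) < (phi b q a : ℝ) := by exact_mod_cast hp
      have e2 : (0 : ℝ) < (phi b q a' : ℝ) := by exact_mod_cast hp'
      have e3 : (0 : ℝ) < (phi b q (R n) : ℝ) := by exact_mod_cast hpr
      have e4 : (0 : ℝ) < (phi b q (R (n + D)) : ℝ) := by exact_mod_cast hpr'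
      push_cast
      rw [Real.log_mul (mul_pos e2 e3).ne' (inv_pos.2 (mul_pos e1 e4)).ne', Real.log_inv,
        Real.log_mul e2.ne' e3.ne', Real.log_mul e1.ne' e4.ne']
      ring
    rw [hlog, log_phi b q a hb0 ha1, log_phi b q a' hb0 ha1', log_phi b q _ hb0 hr1,
      log_phi b q _ hb0 hr1']
    push_cast at ha3'
    simp only [Int.cast_add, Int.cast_mul, Int.cast_sub, Int.cast_natCast]
    have hm : (padicValNat q b : ℝ) ≤ b := by
      exact_mod_cast (padicValNat_le_nat_log b).trans (Nat.log_le_self _ _)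
    have hm0 : (0 : ℝ) ≤ padicValNat q b := Nat.cast_nonneg _
    have heq : (D : ℝ) * (padicValNat q b * Real.log β) -
        ((padicValNat q b : ℝ) * (k' - k) + (padicValNat q a' - padicValNat q a) -
          (padicValNat q (R (n + D)) - padicValNat q (R n))) * Real.log b -
        (padicValNat q b * Real.log a' - padicValNat q a' * Real.log b +
          (padicValNat q b * Real.log (R n) - padicValNat q (R n) * Real.log b) -
          (padicValNat q b * Real.log a - padicValNat q a * Real.log b +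
          (padicValNat q b * Real.log (R (n + D)) - padicValNat q (R (n + D)) * Real.log b))) =
        padicValNat q b * ((Real.log H + Real.log (R (n + D)) + (n + D) * Real.log β -
          k' * Real.log b - Real.log a') -
          (Real.log H + Real.log (R n) + n * Real.log β - k * Real.log b - Real.log a)) := by ring
    rw [heq, abs_mul, abs_of_nonneg hm0]
    have h3 : |(Real.log H + Real.log (R (n + D)) + (n + D) * Real.log β -
          k' * Real.log b - Real.log a') -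
          (Real.log H + Real.log (R n) + n * Real.log β - k * Real.log b - Real.log a)| ≤
        2 * (1 / (b : ℝ) ^ (Λ * y)) := by
      refine (abs_sub _ _).trans ?_
      linarith
    calc (padicValNat q b : ℝ) * _ ≤ b * (2 * (1 / (b : ℝ) ^ (Λ * y))) :=
          mul_le_mul hm h3 (abs_nonneg _) (Nat.cast_nonneg _)
      _ = 2 * b / (b : ℝ) ^ (Λ * y) := by ring

/-- The density theorem with factors `R_n`. -/
theorem densityR (b : ℕ) (hb : 2 ≤ b) (β : ℝ) (hirr : Irrational (Real.log β / Real.log b))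
    (D₀ : ℕ) (hD₀ : 1 ≤ D₀) (Λ : ℕ) (hΛ : 128 * b * (D₀ + 1) * D₀ ≤ Λ) :
    ∃ y₀ : ℕ, ∀ y : ℕ, y₀ ≤ y → ∀ (H : ℝ) (R : ℕ → ℕ) (N : ℕ), Λ * y * b ≤ N →
      ∀ S : Finset ℕ, (∀ n ∈ S, n < N ∧ n ∈ ZR b β H R Λ y) → S.card * D₀ ≤ 3 * N := by
  obtain ⟨y₀, h⟩ := density_abs b hb β hirr D₀ hD₀ (2 * b) (by omega) Λ (by
    calc 64 * (2 * b) * (D₀ + 1) * D₀ = 128 * b * (D₀ + 1) * D₀ := by ring
      _ ≤ Λ := hΛ)
  have : Fact b.minFac.Prime := ⟨Nat.minFac_prime (by omega)⟩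
  exact ⟨y₀, fun y hy H R => h y hy (ZR b β H R Λ y)
    (fun n D h1 h2 => rel_of_memR b b.minFac hb β H R Λ y n D h1 h2)⟩

open scoped Classical in
/-- The `n < N` which belong to the exceptional sets of at least half of the scales. -/
noncomputable def badSetR (b : ℕ) (β H : ℝ) (R : ℕ → ℕ) (Λ r I N : ℕ) : Finset ℕ :=
  (range N).filter (fun n => I ≤ 2 * ((range I).filter
    (fun i => n ∈ ZR b β H R Λ (r * (Λ + 1) ^ i))).card)

theorem card_badSetR (b : ℕ) (hb : 2 ≤ b) (β : ℝ) (hirr : Irrational (Real.log β / Real.log b))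
    (D₀ : ℕ) (hD₀ : 1 ≤ D₀) (Λ : ℕ) (hΛ : 128 * b * (D₀ + 1) * D₀ ≤ Λ) :
    ∃ r₀ : ℕ, ∀ r : ℕ, r₀ ≤ r → ∀ (H : ℝ) (R : ℕ → ℕ) (N : ℕ), r ^ 4 ≤ N →
      (badSetR b β H R Λ r (Nat.log (Λ + 1) r) N).card * D₀ ≤ 6 * N := by
  classical
  obtain ⟨y₀, hy₀⟩ := densityR b hb β hirr D₀ hD₀ Λ hΛ
  have hΛ1 : 1 ≤ Λ := by
    refine le_trans ?_ hΛ
    have : 0 < 128 * b * (D₀ + 1) * D₀ := by positivity
    omega
  refine ⟨y₀ + Λ * b + (Λ + 1), ?_⟩
  intro r hr H R N hN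
  set I := Nat.log (Λ + 1) r with hI
  have hr0 : r ≠ 0 := by omega
  have hIpos : 0 < I := Nat.log_pos (by omega) (by omega)
  have hpowI : (Λ + 1) ^ I ≤ r := Nat.pow_log_le_self _ hr0
  set Bad := badSetR b β H R Λ r I N with hBad
  have h1 : Bad.card * I ≤ ∑ n ∈ Bad, 2 * ((range I).filter
      (fun i => n ∈ ZR b β H R Λ (r * (Λ + 1) ^ i))).card := by
    rw [← smul_eq_mul, ← Finset.sum_const]
    apply Finset.sum_le_sum
    intro n hn
    rw [hBad, badSetR, Finset.mem_filter] at hn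
    exact hn.2
  have h2 : ∑ n ∈ Bad, ((range I).filter
      (fun i => n ∈ ZR b β H R Λ (r * (Λ + 1) ^ i))).card =
      ∑ i ∈ range I, (Bad.filter (fun n => n ∈ ZR b β H R Λ (r * (Λ + 1) ^ i))).card := by
    simp only [Finset.card_filter]
    rw [Finset.sum_comm]
  have h3 : ∀ i ∈ range I,
      (Bad.filter (fun n => n ∈ ZR b β H R Λ (r * (Λ + 1) ^ i))).card * D₀ ≤ 3 * N := by
    intro i hi
    rw [Finset.mem_range] at hi
    have hle : r * (Λ + 1) ^ i ≤ r * r := by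
      apply Nat.mul_le_mul_left
      exact (Nat.pow_le_pow_right (by omega) hi.le).trans hpowI
    apply hy₀ (r * (Λ + 1) ^ i) _ H R N _
    · intro n hn
      rw [Finset.mem_filter] at hn
      refine ⟨?_, hn.2⟩
      have := hn.1
      rw [hBad, badSetR, Finset.mem_filter, Finset.mem_range] at this
      exact this.1
    · calc y₀ ≤ r := by omega
        _ ≤ r * (Λ + 1) ^ i := Nat.le_mul_of_pos_right _ (by positivity)
    · calc Λ * (r * (Λ + 1) ^ i) * b = (Λ * b) * (r * (Λ + 1) ^ i) := by ring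
        _ ≤ r * (r * r) := Nat.mul_le_mul (by omega) hle
        _ ≤ r * (r * r) * r := Nat.le_mul_of_pos_right _ (by omega)
        _ = r ^ 4 := by ring
        _ ≤ N := hN
  have h4 : Bad.card * I * D₀ ≤ (6 * N) * I := by
    calc Bad.card * I * D₀ ≤ (∑ n ∈ Bad, 2 * ((range I).filter
          (fun i => n ∈ ZR b β H R Λ (r * (Λ + 1) ^ i))).card) * D₀ := Nat.mul_le_mul_right _ h1
      _ = 2 * ∑ i ∈ range I,
          (Bad.filter (fun n => n ∈ ZR b β H R Λ (r * (Λ + 1) ^ i))).card * D₀ := by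
        rw [← Finset.mul_sum, h2, mul_assoc, Finset.sum_mul]
      _ ≤ 2 * ∑ i ∈ range I, 3 * N := Nat.mul_le_mul_left _ (Finset.sum_le_sum h3)
      _ = (6 * N) * I := by
        rw [Finset.sum_const, Finset.card_range, smul_eq_mul]
        ring
  have h5 : (Bad.card * D₀) * I ≤ (6 * N) * I := by
    calc (Bad.card * D₀) * I = Bad.card * I * D₀ := by ring
      _ ≤ _ := h4
  exact Nat.le_of_mul_le_mul_right h5 hIpos

end Pool.Agent.Helper32.RB
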