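import Pool.Agent.Helper32.RB.Size

/-!
# The exceptional set
-/

namespace Pool.Agent.Helper32.RB

open Finset Filter Topology

open scoped Classical in
/-- The `n < N` which belong to the exceptional sets of at least half of the scales. -/
noncomputable def badSet (b : ℕ) (β H : ℝ) (Λ r I N : ℕ) : Finset ℕ :=
  (range N).filter (fun n => I ≤ 2 * ((range I).filter
    (fun i => n ∈ ZZ b β H Λ (r * (Λ + 1) ^ i))).card)

theorem card_badSet (b : ℕ) (hb : 2 ≤ b) (β : ℝ) (hirr : Irrational (Real.log β / Real.log b))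
    (D₀ : ℕ) (hD₀ : 1 ≤ D₀) (Λ : ℕ) (hΛ : 64 * b * (D₀ + 1) * D₀ ≤ Λ) :
    ∃ r₀ : ℕ, ∀ r : ℕ, r₀ ≤ r → ∀ (H : ℝ) (N : ℕ), r ^ 4 ≤ N →
      (badSet b β H Λ r (Nat.log (Λ + 1) r) N).card * D₀ ≤ 6 * N := by
  classical
  obtain ⟨y₀, hy₀⟩ := density b hb β hirr D₀ hD₀ Λ hΛ
  have hΛ1 : 1 ≤ Λ := by
    refine le_trans ?_ hΛ
    have : 0 < 64 * b * (D₀ + 1) * D₀ := by positivity
    omega
  refine ⟨y₀ + Λ * b + (Λ + 1), ?_⟩
  intro r hr H N hN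
  set I := Nat.log (Λ + 1) r with hI
  have hr0 : r ≠ 0 := by omega
  have hIpos : 0 < I := Nat.log_pos (by omega) (by omega)
  have hpowI : (Λ + 1) ^ I ≤ r := Nat.pow_log_le_self _ hr0
  set Bad := badSet b β H Λ r I N with hBad
  have h1 : Bad.card * I ≤ ∑ n ∈ Bad, 2 * ((range I).filter
      (fun i => n ∈ ZZ b β H Λ (r * (Λ + 1) ^ i))).card := by
    rw [← smul_eq_mul, ← Finset.sum_const]
    apply Finset.sum_le_sum
    intro n hn
    rw [hBad, badSet, Finset.mem_filter] at hn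
    exact hn.2
  have h2 : ∑ n ∈ Bad, ((range I).filter
      (fun i => n ∈ ZZ b β H Λ (r * (Λ + 1) ^ i))).card =
      ∑ i ∈ range I, (Bad.filter (fun n => n ∈ ZZ b β H Λ (r * (Λ + 1) ^ i))).card := by
    simp only [Finset.card_filter]
    rw [Finset.sum_comm]
  have h3 : ∀ i ∈ range I,
      (Bad.filter (fun n => n ∈ ZZ b β H Λ (r * (Λ + 1) ^ i))).card * D₀ ≤ 3 * N := by
    intro i hi
    rw [Finset.mem_range] at hi
    have hle : r * (Λ + 1) ^ i ≤ r * r := by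
      apply Nat.mul_le_mul_left
      exact (Nat.pow_le_pow_right (by omega) hi.le).trans hpowI
    apply hy₀ (r * (Λ + 1) ^ i) _ H N _
    · intro n hn
      rw [Finset.mem_filter] at hn
      refine ⟨?_, hn.2⟩
      have := hn.1
      rw [hBad, badSet, Finset.mem_filter, Finset.mem_range] at this
      exact this.1
    · calc y₀ ≤ r := by omega
        _ ≤ r * (Λ + 1) ^ i := Nat.le_mul_of_pos_right _ (by positivity)
    · calc Λ * (r * (Λ + 1) ^ i) * b = (Λ * b) * (r * (Λ + 1) ^ i) := by ring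
        _ ≤ r * (r * r) := Nat.mul_le_mul (by omega) hle
        _ ≤ r * (r * r) * r := Nat.le_mul_of_pos_right _ (by omega)
        _ = r ^ 4 := by ring
        _ ≤ N := hN
  have h4 : Bad.card * I * D₀ ≤ (6 * N) * I := by
    calc Bad.card * I * D₀ ≤ (∑ n ∈ Bad, 2 * ((range I).filter
          (fun i => n ∈ ZZ b β H Λ (r * (Λ + 1) ^ i))).card) * D₀ := Nat.mul_le_mul_right _ h1
      _ = 2 * ∑ i ∈ range I,
          (Bad.filter (fun n => n ∈ ZZ b β H Λ (r * (Λ + 1) ^ i))).card * D₀ := by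
        rw [← Finset.mul_sum, h2, mul_assoc, Finset.sum_mul]
      _ ≤ 2 * ∑ i ∈ range I, 3 * N := Nat.mul_le_mul_left _ (Finset.sum_le_sum h3)
      _ = (6 * N) * I := by
        rw [Finset.sum_const, Finset.card_range, smul_eq_mul]
        ring
  have h5 : (Bad.card * D₀) * I ≤ (6 * N) * I := by
    calc (Bad.card * D₀) * I = Bad.card * I * D₀ := by ring
      _ ≤ _ := h4
  exact Nat.le_of_mul_le_mul_right h5 hIpos

/-- Outside of a set of small density, all differences have many digit changes. -/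
theorem key (b : ℕ) (hb : 2 ≤ b) (β γ K ρ : ℝ) (hβ : 1 < β)
    (hirr : Irrational (Real.log β / Real.log b)) (hγ0 : 0 ≤ γ) (hγ : γ < β)
    (hρ : ρ ≠ 0) (v : ℕ → ℝ) (hv : ∀ n, |v n - ρ * β ^ n| ≤ K * γ ^ n) (h q : ℕ) (hh : 1 ≤ h)
    (hq : 1 ≤ q) (D₀ : ℕ) (hD₀ : 1 ≤ D₀) :
    ∃ Λ r₀ C₁ : ℕ, 1 ≤ Λ ∧ ∀ r : ℕ, r₀ ≤ r → ∀ N : ℕ, r ^ 4 ≤ N → ∃ Bad : Finset ℕ,
      Bad.card * D₀ ≤ 6 * N ∧ ∀ n m : ℕ, n < N → n ∉ Bad → r ^ 3 ≤ n → m + r ^ 3 ≤ n →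
        ∃ F : Finset ℕ, Nat.log (Λ + 1) r ≤ 2 * F.card ∧
          ∀ k ∈ F, r ^ 2 ≤ k ∧ k ≤ C₁ * N ∧ Change b ((h : ℝ) * (v n - v m) * q) k := by
  classical
  obtain ⟨Λ, hΛ⟩ : ∃ Λ : ℕ, Λ = 64 * b * (D₀ + 1) * D₀ := ⟨_, rfl⟩
  have hΛ1 : 1 ≤ Λ := by
    rw [hΛ]
    have : 0 < 64 * b * (D₀ + 1) * D₀ := by positivity
    omega
  obtain ⟨r₁, hr₁⟩ := card_badSet b hb β hirr D₀ hD₀ Λ hΛ.ge
  obtain ⟨r₂, C₁, hr₂⟩ := size b hb β γ K ρ hβ hγ0 hγ hρ v hv h q hh hq Λ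
  refine ⟨Λ, r₁ + r₂ + 1, C₁, hΛ1, ?_⟩
  intro r hr N hN
  set I := Nat.log (Λ + 1) r with hI
  have hr0 : r ≠ 0 := by omega
  have hpowI : (Λ + 1) ^ I ≤ r := Nat.pow_log_le_self _ hr0
  refine ⟨badSet b β (h * q * |ρ|) Λ r I N, hr₁ r (by omega) _ N hN, ?_⟩
  intro n m hn hnb hn3 hm3
  obtain ⟨κ, hκ1, hκ2, hκ3, hκ4, hκ5⟩ := hr₂ r (by omega) n m hn3 hm3
  have hyI : r * (Λ + 1) ^ I ≤ r ^ 2 := by
    rw [pow_two]
    exact Nat.mul_le_mul_left _ hpowI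
  have hb1 : (1 : ℝ) < b := by exact_mod_cast (by omega : 1 < b)
  obtain ⟨F, hF1, hF2⟩ := exists_changes b hb β (h * q * |ρ|) ((h : ℝ) * (v n - v m) * q) κ n Λ r I
    hΛ1 (by omega) hκ1 hκ2 (by omega) (by
      refine hκ5.trans ?_
      apply div_le_div_of_nonneg_left (by norm_num) (by positivity)
      apply pow_le_pow_right₀ hb1.le
      exact Nat.mul_le_mul_left _ hyI)
  refine ⟨F, ?_, ?_⟩
  · have h1 := hF2 ((range I).filter (fun i => n ∈ ZZ b β (h * q * |ρ|) Λ (r * (Λ + 1) ^ i)))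
      (fun i hi h => Finset.mem_filter.2 ⟨hi, h⟩)
    have h2 : ¬ I ≤ 2 * ((range I).filter
        (fun i => n ∈ ZZ b β (h * q * |ρ|) Λ (r * (Λ + 1) ^ i))).card := by
      intro h3
      apply hnb
      rw [badSet, Finset.mem_filter, Finset.mem_range]
      exact ⟨hn, h3⟩
    omega
  · intro k hk
    obtain ⟨h1, h2, h3⟩ := hF1 k hk
    refine ⟨by omega, ?_, h3⟩
    calc k ≤ κ := h2
      _ ≤ C₁ * n := hκ4
      _ ≤ C₁ * N := Nat.mul_le_mul_left _ hn.le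

end Pool.Agent.Helper32.RB
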