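import Pool.Agent.Helper32.RB.Asm
import Pool.Agent.Helper82.RB.Chf
import Pool.Agent.Helper46.RB.As

/-!
# The Cassels-Schmidt theorem for all real bases
-/

namespace Pool.Agent.Helper32.RB

open Finset Filter Topology MeasureTheory ProbabilityTheory
open Pool.Agent.Helper59.RE (e norm_e conj_e continuous_e)

/-- A bounded digit. -/
def trunc (C : ℕ) (z : ℤ) : ℤ := max (-(C : ℤ)) (min C z)

theorem trunc_abs (C : ℕ) (z : ℤ) : |trunc C z| ≤ C := by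
  unfold trunc
  rw [abs_le]
  constructor
  · exact le_max_left _ _
  · apply max_le
    · have : (0 : ℤ) ≤ C := Int.natCast_nonneg _
      omega
    · exact min_le_left _ _

theorem trunc_eq (C : ℕ) (z : ℤ) (hz : |z| ≤ C) : trunc C z = z := by
  unfold trunc
  rw [abs_le] at hz
  rw [min_eq_right hz.2, max_eq_right hz.1]

theorem summable_digits (b : ℕ) (hb : 2 ≤ b) (C : ℕ) (d : ℕ → ℤ) (hd : ∀ k, |d k| ≤ C) :
    Summable (fun k : ℕ => (d k : ℝ) / (b : ℝ) ^ k) := by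
  have hb1 : (1 : ℝ) < b := by exact_mod_cast (by omega : 1 < b)
  have h1 : Summable (fun k : ℕ => (C : ℝ) * ((b : ℝ)⁻¹) ^ k) :=
    (summable_geometric_of_lt_one (by positivity) (inv_lt_one_of_one_lt₀ hb1)).mul_left _
  refine Summable.of_norm_bounded h1 (fun k => ?_)
  rw [Real.norm_eq_abs, abs_div, abs_of_pos (by positivity : (0 : ℝ) < (b : ℝ) ^ k),
    div_eq_mul_inv, inv_pow]
  apply mul_le_mul_of_nonneg_right _ (by positivity)
  have := hd k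
  have h2 : |(d k : ℝ)| = ((|d k| : ℤ) : ℝ) := by push_cast; rfl
  rw [h2]
  exact_mod_cast this

theorem measurable_series {Ω : Type*} [MeasurableSpace Ω] (b : ℕ) (hb : 2 ≤ b) (C : ℕ)
    (ξ : ℕ → Ω → ℤ) (hξ : ∀ k, Measurable (ξ k)) (hC : ∀ k ω, |ξ k ω| ≤ C) :
    Measurable (fun ω => ∑' k : ℕ, (ξ k ω : ℝ) / (b : ℝ) ^ k) := by
  have h1 : ∀ ω, Tendsto (fun n : ℕ => ∑ k ∈ range n, (ξ k ω : ℝ) / (b : ℝ) ^ k) atTop
      (𝓝 (∑' k : ℕ, (ξ k ω : ℝ) / (b : ℝ) ^ k)) := fun ω =>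
    (summable_digits b hb C (fun k => ξ k ω) (fun k => hC k ω)).hasSum.tendsto_sum_nat
  refine measurable_of_tendsto_metrizable (f := fun n ω => ∑ k ∈ range n,
    (ξ k ω : ℝ) / (b : ℝ) ^ k) (fun n => ?_) (tendsto_pi_nhds.2 h1)
  refine Finset.measurable_sum _ (fun k _ => ?_)
  exact ((measurable_from_top (f := fun z : ℤ => (z : ℝ))).comp (hξ k)).div_const _

/-- **Almost sure equidistribution for all real bases.** -/
theorem main {Ω : Type*} [MeasurableSpace Ω] (μ : Measure Ω) [IsProbabilityMeasure μ]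
    (b : ℕ) (hb : 2 ≤ b) (β γ K ρ : ℝ) (hβ : 1 < β)
    (hirr : Irrational (Real.log β / Real.log b)) (hγ0 : 0 ≤ γ) (hγ : γ < β)
    (hρ : ρ ≠ 0) (v : ℕ → ℝ) (hv : ∀ n, |v n - ρ * β ^ n| ≤ K * γ ^ n)
    (ξ : ℕ → Ω → ℤ) (hξ : ∀ k, Measurable (ξ k)) (hind : iIndepFun ξ μ) (C : ℕ)
    (hC : ∀ k, ∀ᵐ ω ∂μ, |ξ k ω| ≤ C) (p : ℕ → ℝ)
    (hp : ∀ k (j : ℤ), μ.real {ω | ξ k ω = j} ≤ 1 - p k)
    (hp' : Tendsto (fun k : ℕ => p k * (Real.log k / Real.log (Real.log k))) atTop atTop)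
    (c : ℕ → ℝ) (a : ℕ → ℕ) (ha : StrictMono a) (D : ℕ) (haD : ∀ n, a n ≤ D * (n + 1)) :
    ∀ᵐ ω ∂μ, ∀ s t : ℝ, 0 ≤ s → s < t → t ≤ 1 →
      Tendsto (fun N : ℕ => (((range N).filter (fun i =>
        s ≤ Int.fract ((∑' k : ℕ, (ξ k ω : ℝ) / (b : ℝ) ^ k) * v (a i) + c i) ∧
        Int.fract ((∑' k : ℕ, (ξ k ω : ℝ) / (b : ℝ) ^ k) * v (a i) + c i) < t)).card : ℝ) / N)
        atTop (𝓝 (t - s)) := by
  obtain ⟨κ₀, hκ₀, hchf⟩ := Pool.Agent.Helper82.RB.chf_bound μ ξ hξ hind C hC b hb p hp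
  -- the bounded digits
  set ξ' : ℕ → Ω → ℤ := fun k ω => trunc C (ξ k ω) with hξ'
  have hξ'm : ∀ k, Measurable (ξ' k) := fun k => (measurable_from_top (f := trunc C)).comp (hξ k)
  have hX' : Measurable (fun ω => ∑' k : ℕ, (ξ' k ω : ℝ) / (b : ℝ) ^ k) :=
    measurable_series b hb C ξ' hξ'm (fun k ω => trunc_abs C _)
  have hall : ∀ᵐ ω ∂μ, ∀ k, |ξ k ω| ≤ C := ae_all_iff.2 hC
  have hae : ∀ᵐ ω ∂μ, (∑' k : ℕ, (ξ' k ω : ℝ) / (b : ℝ) ^ k) =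
      ∑' k : ℕ, (ξ k ω : ℝ) / (b : ℝ) ^ k := by
    filter_upwards [hall] with ω hω
    congr 1
    funext k
    rw [hξ']
    simp only
    rw [trunc_eq C _ (hω k)]
  have hq : 1 ≤ (2 * C).factorial := Nat.factorial_pos _
  have hfin := Pool.Agent.Helper46.RB.as_equi μ
    (fun ω => ∑' k : ℕ, (ξ' k ω : ℝ) / (b : ℝ) ^ k) hX' (fun i => v (a i)) c (by
    intro h hh η hη
    refine corr_small b hb β γ K ρ hβ hirr hγ0 hγ hρ v hv h (2 * C).factorial hh hq D a ha haD p hp'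
      κ₀ hκ₀ (fun T => ‖∫ ω, e (T * ∑' k : ℕ, (ξ' k ω : ℝ) / (b : ℝ) ^ k) ∂μ‖) ?_ ?_ ?_ η hη
    · intro T
      have h1 := norm_integral_le_of_norm_le_const (μ := μ) (C := 1)
        (f := fun ω => e (T * ∑' k : ℕ, (ξ' k ω : ℝ) / (b : ℝ) ^ k))
        (Filter.Eventually.of_forall (fun ω => (norm_e _).le))
      simpa using h1
    · intro T
      have h1 : ∀ ω, e (-T * ∑' k : ℕ, (ξ' k ω : ℝ) / (b : ℝ) ^ k) =
          (starRingEnd ℂ) (e (T * ∑' k : ℕ, (ξ' k ω : ℝ) / (b : ℝ) ^ k)) := by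
        intro ω
        rw [conj_e, neg_mul]
      simp only [h1]
      rw [integral_conj, Complex.norm_conj]
    · intro T F hF1 hF2
      have h1 := hchf T F hF1 (fun k hk => hF2 k hk)
      have h2 : ∫ ω, e (T * ∑' k : ℕ, (ξ' k ω : ℝ) / (b : ℝ) ^ k) ∂μ =
          ∫ ω, e (T * ∑' k : ℕ, (ξ k ω : ℝ) / (b : ℝ) ^ k) ∂μ := by
        apply integral_congr_ae
        filter_upwards [hae] with ω hω
        rw [hω]
      change ‖∫ ω, e (T * ∑' k : ℕ, (ξ' k ω : ℝ) / (b : ℝ) ^ k) ∂μ‖ ≤ _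
      rw [h2]
      exact h1)
  filter_upwards [hfin, hae] with ω h1 h2
  rw [h2] at h1
  exact h1

end Pool.Agent.Helper32.RB
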