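import Pool.Agent.Helper32.RB.ChgR
import Pool.Agent.Helper32.RB.Asm

/-!
# The pointwise claim

For a double sequence `S n l` of size `H R_n β^n`, most rows have many digit changes.
-/

namespace Pool.Agent.Helper32.RB

open Finset Filter Topology

/-- The size of the gaps. -/
def rr (D J : ℕ) : ℕ := Nat.sqrt (Nat.sqrt ((D + 1) * J))

theorem sizeR (b : ℕ) (hb : 2 ≤ b) (β : ℝ) (hβ : 1 < β) (H : ℝ) (hH0 : 0 < H) (R : ℕ → ℕ)
    (hR1 : ∀ n, 1 ≤ R n) (hR2 : ∀ n, R n ≤ n + 1) (c₀ : ℝ) (hc₀ : 0 < c₀)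
    (hc₀β : c₀ * Real.log b < Real.log β) (K θ : ℝ) (hθ0 : 0 < θ) (hθ1 : θ < 1) (Λ : ℕ) :
    ∃ r₀ C₁ : ℕ, ∀ r : ℕ, r₀ ≤ r → ∀ (n l : ℕ) (T : ℝ), r ^ 3 ≤ n → n + 1 ≤ r ^ 5 →
      l + r ^ 3 ≤ n → |(|T| / (H * R n * β ^ n) - 1)| ≤ K * (n + 1) * θ ^ (n - l) →
      ∃ κ : ℕ, (b : ℝ) ^ κ ≤ |T| ∧ |T| < (b : ℝ) ^ (κ + 1) ∧
      2 * r ^ 2 ≤ κ ∧ ⌊c₀ * n⌋₊ + r ^ 2 ≤ κ ∧ κ ≤ C₁ * n ∧
      |Real.log |T| - (Real.log H + Real.log (R n) + n * Real.log β)| ≤
        1 / 2 / (b : ℝ) ^ (Λ * r ^ 2) := by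
  have hβ0 : 0 < β := by linarith
  have hb0 : (0 : ℝ) < b := by exact_mod_cast (by omega : 0 < b)
  have hb1 : (1 : ℝ) < b := by exact_mod_cast (by omega : 1 < b)
  have hlb : 0 < Real.log b := Real.log_pos hb1
  have hlβ : 0 < Real.log β := Real.log_pos hβ
  obtain ⟨c, hc⟩ : ∃ c : ℝ, c = -Real.log θ := ⟨_, rfl⟩
  have hc0 : 0 < c := by rw [hc]; have := Real.log_neg hθ0 hθ1; linarith
  obtain ⟨K', hK'⟩ : ∃ K' : ℝ, K' = 4 * (|K| + 1) := ⟨_, rfl⟩
  have hK'1 : 4 ≤ K' := by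
    rw [hK']
    have := abs_nonneg K
    linarith
  obtain ⟨g, hg⟩ : ∃ g : ℝ, g = Real.log β - c₀ * Real.log b := ⟨_, rfl⟩
  have hg0 : 0 < g := by rw [hg]; linarith
  refine ⟨⌈(Λ * Real.log b + Real.log K' + 5) / c⌉₊ +
    ⌈(3 * Real.log b + |Real.log H| + 1) / Real.log β⌉₊ +
    ⌈(3 * Real.log b + |Real.log H| + 1) / g⌉₊
    + 1, ⌈(|Real.log H| + 2 + Real.log β) / Real.log b⌉₊, ?_⟩
  intro r hr n l T hn hn5 hl herr
  have hr1 : 1 ≤ r := by omega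
  have hrR : (1 : ℝ) ≤ r := by exact_mod_cast hr1
  have hrA : Λ * Real.log b + Real.log K' + 5 ≤ c * r := by
    have h1 : (Λ * Real.log b + Real.log K' + 5) / c ≤ r := by
      refine (Nat.le_ceil _).trans ?_
      exact_mod_cast (by omega : ⌈(Λ * Real.log b + Real.log K' + 5) / c⌉₊ ≤ r)
    rw [div_le_iff₀ hc0] at h1
    linarith
  have hrB : 3 * Real.log b + |Real.log H| + 1 ≤ Real.log β * r := by
    have h1 : (3 * Real.log b + |Real.log H| + 1) / Real.log β ≤ r := by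
      refine (Nat.le_ceil _).trans ?_
      exact_mod_cast (by omega : ⌈(3 * Real.log b + |Real.log H| + 1) / Real.log β⌉₊ ≤ r)
    rw [div_le_iff₀ hlβ] at h1
    linarith
  have hrC : 3 * Real.log b + |Real.log H| + 1 ≤ g * r := by
    have h1 : (3 * Real.log b + |Real.log H| + 1) / g ≤ r := by
      refine (Nat.le_ceil _).trans ?_
      exact_mod_cast (by omega : ⌈(3 * Real.log b + |Real.log H| + 1) / g⌉₊ ≤ r)
    rw [div_le_iff₀ hg0] at h1
    linarith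
  have hr2 : (1 : ℝ) ≤ (r : ℝ) ^ 2 := one_le_pow₀ hrR
  have hrr2 : (r : ℝ) ≤ (r : ℝ) ^ 2 := by nlinarith
  have hRR : (1 : ℝ) ≤ R n := by exact_mod_cast hR1 n
  have hn3 : (r : ℝ) ^ 3 ≤ n := by exact_mod_cast hn
  have hn1 : (1 : ℝ) ≤ n := by
    have : (1 : ℝ) ≤ (r : ℝ) ^ 3 := one_le_pow₀ hrR
    linarith
  have hβn : 0 < β ^ n := pow_pos hβ0 n
  have hden : 0 < H * R n * β ^ n := by positivity
  -- the relative error
  obtain ⟨t, ht⟩ : ∃ t : ℝ, t = |T| / (H * R n * β ^ n) - 1 := ⟨_, rfl⟩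
  rw [← ht] at herr
  have hnR5 : (n : ℝ) + 1 ≤ (r : ℝ) ^ 5 := by exact_mod_cast hn5
  have herr2 : |t| ≤ (|K| + 1) * (r : ℝ) ^ 5 * θ ^ (r ^ 3) := by
    have h1 : θ ^ (n - l) ≤ θ ^ (r ^ 3) := pow_le_pow_of_le_one hθ0.le hθ1.le (by omega)
    have h2 : K ≤ |K| + 1 := by have := le_abs_self K; linarith
    calc |t| ≤ K * (n + 1) * θ ^ (n - l) := herr
      _ ≤ (|K| + 1) * (r : ℝ) ^ 5 * θ ^ (r ^ 3) := by
        have h3 : 0 ≤ |K| := abs_nonneg K
        gcongr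
  have hlogr : Real.log r ≤ r := by
    have := Real.log_le_sub_one_of_pos (by linarith : (0 : ℝ) < r)
    linarith
  have hsmall : 4 * ((|K| + 1) * (r : ℝ) ^ 5 * θ ^ (r ^ 3)) ≤ 1 / (b : ℝ) ^ (Λ * r ^ 2) := by
    have h1 : 4 * ((|K| + 1) * (r : ℝ) ^ 5 * θ ^ (r ^ 3)) =
        Real.exp (Real.log K' + 5 * Real.log r - c * (r : ℝ) ^ 3) := by
      rw [sub_eq_add_neg, Real.exp_add, Real.exp_add, Real.exp_log (by linarith), hc]
      have e1 : -(-Real.log θ * (r : ℝ) ^ 3) = ((r ^ 3 : ℕ) : ℝ) * Real.log θ := by push_cast; ring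
      have e2 : (5 : ℝ) * Real.log r = ((5 : ℕ) : ℝ) * Real.log r := by norm_num
      rw [e1, e2, ← Real.log_pow, ← Real.log_pow, Real.exp_log (by positivity),
        Real.exp_log (by positivity), hK']
      ring
    have h2 : 1 / (b : ℝ) ^ (Λ * r ^ 2) = Real.exp (-(Λ * (r : ℝ) ^ 2 * Real.log b)) := by
      rw [Real.exp_neg, one_div]
      congr 1
      have : (Λ : ℝ) * (r : ℝ) ^ 2 * Real.log b = ((Λ * r ^ 2 : ℕ) : ℝ) * Real.log b := by
        push_cast; ring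
      rw [this, ← Real.log_pow, Real.exp_log (by positivity)]
    rw [h1, h2]
    apply Real.exp_le_exp.2
    have h3 : (r : ℝ) ^ 2 * (Λ * Real.log b + Real.log K' + 5) ≤ (r : ℝ) ^ 2 * (c * r) :=
      mul_le_mul_of_nonneg_left hrA (by positivity)
    have h4 : Real.log K' ≤ (r : ℝ) ^ 2 * Real.log K' :=
      le_mul_of_one_le_left (Real.log_nonneg (by linarith)) hr2
    have h5 : (r : ℝ) ^ 2 * (c * r) = c * (r : ℝ) ^ 3 := by ring
    nlinarith
  have hbpow : 1 / (b : ℝ) ^ (Λ * r ^ 2) ≤ 1 := by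
    rw [div_le_one (by positivity)]
    exact one_le_pow₀ hb1.le
  have ht4 : |t| ≤ 1 / 4 := by linarith
  have ht1 := abs_le.1 ht4
  have h1t : 0 < 1 + t := by linarith
  have habs : |T| = H * R n * β ^ n * (1 + t) := by
    rw [ht]
    field_simp
    ring
  have hTpos : 0 < |T| := by rw [habs]; positivity
  have hlogT : Real.log |T| =
      Real.log H + Real.log (R n) + n * Real.log β + Real.log (1 + t) := by
    rw [habs, Real.log_mul (by positivity) h1t.ne', Real.log_mul (by positivity) hβn.ne',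
      Real.log_mul hH0.ne' (by positivity), Real.log_pow]
  have hlt := log_near t (by linarith)
  have hlt1 : |Real.log (1 + t)| ≤ 1 / 2 := by linarith
  have hlt2 := abs_le.1 hlt1
  have hHabs := abs_le.1 (le_refl |Real.log H|)
  have hlogR0 : 0 ≤ Real.log (R n) := Real.log_nonneg hRR
  have hlogR1 : Real.log (R n) ≤ n := by
    have h1 := Real.log_le_sub_one_of_pos (by linarith : (0 : ℝ) < R n)
    have h2 : (R n : ℝ) ≤ n + 1 := by exact_mod_cast hR2 n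
    linarith
  -- the lower bounds of the size
  have hlow : (2 * (r : ℝ) ^ 2 + 1) * Real.log b ≤ Real.log |T| := by
    rw [hlogT]
    have h1 : (r : ℝ) ^ 3 * Real.log β ≤ n * Real.log β := by gcongr
    have h2 : (r : ℝ) ^ 2 * (3 * Real.log b + |Real.log H| + 1) ≤ (r : ℝ) ^ 2 * (Real.log β * r) :=
      mul_le_mul_of_nonneg_left hrB (by positivity)
    have h3 : (|Real.log H| + 1) ≤ (r : ℝ) ^ 2 * (|Real.log H| + 1) :=
      le_mul_of_one_le_left (by positivity) hr2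
    have h4 : Real.log b ≤ (r : ℝ) ^ 2 * Real.log b := le_mul_of_one_le_left hlb.le hr2
    nlinarith
  have hlow2 : (c₀ * n + (r : ℝ) ^ 2 + 1) * Real.log b ≤ Real.log |T| := by
    rw [hlogT]
    have h1 : (r : ℝ) ^ 3 * g ≤ n * g := by gcongr
    have h2 : (r : ℝ) ^ 2 * (3 * Real.log b + |Real.log H| + 1) ≤ (r : ℝ) ^ 2 * (g * r) :=
      mul_le_mul_of_nonneg_left hrC (by positivity)
    have h3 : (|Real.log H| + 1) ≤ (r : ℝ) ^ 2 * (|Real.log H| + 1) :=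
      le_mul_of_one_le_left (by positivity) hr2
    have h4 : Real.log b ≤ (r : ℝ) ^ 2 * Real.log b := le_mul_of_one_le_left hlb.le hr2
    have h5 : n * g = n * Real.log β - c₀ * n * Real.log b := by rw [hg]; ring
    nlinarith
  have hge : (b : ℝ) ^ (2 * r ^ 2 + 1) ≤ |T| := by
    rw [← Real.log_le_log_iff (by positivity) hTpos, Real.log_pow]
    push_cast
    exact hlow
  have hge2 : (b : ℝ) ^ (⌊c₀ * n⌋₊ + r ^ 2 + 1) ≤ |T| := by
    rw [← Real.log_le_log_iff (by positivity) hTpos, Real.log_pow]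
    push_cast
    have h1 : ((⌊c₀ * n⌋₊ : ℕ) : ℝ) ≤ c₀ * n := Nat.floor_le (by positivity)
    refine le_trans ?_ hlow2
    gcongr
  have hfl : b ^ (2 * r ^ 2 + 1) ≤ ⌊|T|⌋₊ := by
    apply Nat.le_floor
    push_cast
    exact hge
  have hfl2 : b ^ (⌊c₀ * n⌋₊ + r ^ 2 + 1) ≤ ⌊|T|⌋₊ := by
    apply Nat.le_floor
    push_cast
    exact hge2
  have hfl0 : ⌊|T|⌋₊ ≠ 0 := by
    have : 0 < b ^ (2 * r ^ 2 + 1) := by positivity
    omega
  have hκ : (b : ℝ) ^ Nat.log b ⌊|T|⌋₊ ≤ |T| := by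
    have h1 := Nat.pow_log_le_self b hfl0
    calc ((b : ℝ) ^ Nat.log b ⌊|T|⌋₊) = ((b ^ Nat.log b ⌊|T|⌋₊ : ℕ) : ℝ) := by push_cast; rfl
      _ ≤ ((⌊|T|⌋₊ : ℕ) : ℝ) := by exact_mod_cast h1
      _ ≤ _ := Nat.floor_le (abs_nonneg _)
  refine ⟨Nat.log b ⌊|T|⌋₊, hκ, ?_, ?_, ?_, ?_, ?_⟩
  · have h1 := Nat.lt_pow_succ_log_self (by omega : 1 < b) ⌊|T|⌋₊
    have h2 : ((⌊|T|⌋₊ + 1 : ℕ) : ℝ) ≤ (b : ℝ) ^ (Nat.log b ⌊|T|⌋₊ + 1) := by exact_mod_cast h1
    refine lt_of_lt_of_le (Nat.lt_floor_add_one _) ?_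
    push_cast at h2 ⊢
    exact h2
  · have h1 : 2 * r ^ 2 + 1 ≤ Nat.log b ⌊|T|⌋₊ := Nat.le_log_of_pow_le (by omega) hfl
    omega
  · have h1 : ⌊c₀ * n⌋₊ + r ^ 2 + 1 ≤ Nat.log b ⌊|T|⌋₊ := Nat.le_log_of_pow_le (by omega) hfl2
    omega
  · have h2 := hκ
    rw [← Real.log_le_log_iff (by positivity) hTpos, Real.log_pow, hlogT] at h2
    have h3 : (Nat.log b ⌊|T|⌋₊ : ℝ) * Real.log b ≤ n * (|Real.log H| + 2 + Real.log β) := by
      have h4 : |Real.log H| + 1 ≤ n * (|Real.log H| + 1) :=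
        le_mul_of_one_le_left (by positivity) hn1
      nlinarith
    have h5 : (Nat.log b ⌊|T|⌋₊ : ℝ) ≤
        (⌈(|Real.log H| + 2 + Real.log β) / Real.log b⌉₊ : ℝ) * n := by
      calc (Nat.log b ⌊|T|⌋₊ : ℝ) ≤ n * (|Real.log H| + 2 + Real.log β) / Real.log b := by
            rw [le_div_iff₀ hlb]
            exact h3
        _ = (|Real.log H| + 2 + Real.log β) / Real.log b * n := by ring
        _ ≤ _ := by
          gcongr
          exact Nat.le_ceil _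
    exact_mod_cast h5
  · rw [hlogT]
    have h1 : Real.log H + Real.log (R n) + n * Real.log β + Real.log (1 + t) -
        (Real.log H + Real.log (R n) + n * Real.log β) = Real.log (1 + t) := by ring
    rw [h1]
    have h2 : 1 / 2 / (b : ℝ) ^ (Λ * r ^ 2) = 1 / 2 * (1 / (b : ℝ) ^ (Λ * r ^ 2)) := by ring
    rw [h2]
    linarith

theorem pow_five_le (r : ℕ) (hr : 27 ≤ r) : r ^ 5 ≤ 4 ^ r := by
  induction r, hr using Nat.le_induction with
  | base => norm_num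
  | succ r hr ih =>
    have h1 : (r + 1) ^ 5 ≤ 4 * r ^ 5 := by
      have h2 : 27 * (r + 1) ≤ 28 * r := by omega
      have h3 : 27 ^ 5 * (r + 1) ^ 5 ≤ 28 ^ 5 * r ^ 5 := by
        rw [← mul_pow, ← mul_pow]
        exact Nat.pow_le_pow_left h2 5
      have h4 : 28 ^ 5 * r ^ 5 ≤ 27 ^ 5 * (4 * r ^ 5) := by
        rw [← mul_assoc]
        apply Nat.mul_le_mul_right
        norm_num
      exact Nat.le_of_mul_le_mul_left (h3.trans h4) (by norm_num)
    calc (r + 1) ^ 5 ≤ 4 * r ^ 5 := h1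
      _ ≤ 4 * 4 ^ r := Nat.mul_le_mul_left _ ih
      _ = 4 ^ (r + 1) := by rw [pow_succ]; ring

/-- **The pointwise claim.** -/
theorem pointwise (b : ℕ) (hb : 2 ≤ b) (β : ℝ) (hβ : 1 < β)
    (hirr : Irrational (Real.log β / Real.log b))
    (H : ℝ) (hH : 0 < H) (R : ℕ → ℕ) (hR1 : ∀ n, 1 ≤ R n) (hR2 : ∀ n, R n ≤ n + 1)
    (c₀ : ℝ) (hc₀ : 0 < c₀) (hc₀β : c₀ * Real.log b < Real.log β) (K θ : ℝ) (hθ0 : 0 < θ)
    (hθ : θ < 1) (S : ℕ → ℕ → ℝ)
    (hS : ∀ n l : ℕ, l < n → |(|S n l| / (H * R n * β ^ n) - 1)| ≤ K * (n + 1) * θ ^ (n - l))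
    (h q : ℕ) (hh : 1 ≤ h) (hq : 1 ≤ q) (D : ℕ) (a : ℕ → ℕ) (ha : StrictMono a)
    (haD : ∀ n, a n ≤ D * (n + 1)) (p : ℕ → ℝ)
    (hp : Tendsto (fun k : ℕ => p k * (Real.log k / Real.log (Real.log k))) atTop atTop)
    (κ₀ : ℝ) (hκ₀ : 0 < κ₀) (E : ℕ → ℝ → ℝ)
    (hE : ∀ (m : ℕ) (T : ℝ) (F : Finset ℕ), (∀ k ∈ F, m ≤ k) → (∀ k ∈ F, 0 ≤ p k) →
      (∀ k ∈ F, Change b (T * q) k) → E m T ≤ Real.exp (-(κ₀ * ∑ k ∈ F, p k)))
    (η : ℝ) (hη : 0 < η) :
    ∃ J₀ : ℕ, ∀ J : ℕ, J₀ ≤ J → ∃ B : Finset ℕ, B ⊆ range J ∧ (B.card : ℝ) ≤ η * J ∧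
      ∀ i < J, i ∉ B → (rr D J) ^ 3 ≤ a i ∧ ∀ l < J, a l + (rr D J) ^ 3 ≤ a i →
        E ⌊c₀ * a i⌋₊ (h * S (a i) (a l)) ≤ 1 / Real.log J ^ 2 := by
  classical
  set D₀ : ℕ := ⌈12 * ((D : ℝ) + 1) / η⌉₊ + 1 with hD₀
  obtain ⟨Λ, hΛ⟩ : ∃ Λ : ℕ, Λ = 128 * b * (D₀ + 1) * D₀ := ⟨_, rfl⟩
  have hΛ1 : 1 ≤ Λ := by
    rw [hΛ]
    have : 0 < 128 * b * (D₀ + 1) * D₀ := by positivity
    omega
  have hhR : (1 : ℝ) ≤ h := by exact_mod_cast hh
  have hqR : (1 : ℝ) ≤ q := by exact_mod_cast hq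
  obtain ⟨H', hH'⟩ : ∃ H' : ℝ, H' = h * q * H := ⟨_, rfl⟩
  have hH'0 : 0 < H' := by rw [hH']; positivity
  obtain ⟨r₁, hr₁⟩ := card_badSetR b hb β hirr D₀ (by omega) Λ hΛ.ge
  obtain ⟨r₂, C₁, hr₂⟩ := sizeR b hb β hβ H' hH'0 R hR1 hR2 c₀ hc₀ hc₀β K θ hθ0 hθ Λ
  obtain ⟨L, hL⟩ : ∃ L : ℝ, L = Real.log ((Λ : ℝ) + 1) := ⟨_, rfl⟩
  have hL0 : 0 < L := by
    rw [hL]
    apply Real.log_pos
    have : (1 : ℝ) ≤ Λ := by exact_mod_cast hΛ1
    linarith
  obtain ⟨k₀, hk₀⟩ := p_lower p hp (40 * L / κ₀)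
  obtain ⟨k₁, hk₁⟩ := p_lower p hp 0
  set R₀ : ℕ := r₁ + r₂ + (Λ + 1) ^ 2 + 16 * (C₁ + 1) + k₀ + k₁ + ⌈2 * ((D : ℝ) + 1) / η⌉₊ + 27
    with hR₀
  refine ⟨R₀ ^ 4, ?_⟩
  intro J hJ
  obtain ⟨N, hN⟩ : ∃ N : ℕ, N = (D + 1) * J := ⟨_, rfl⟩
  obtain ⟨r, hr⟩ : ∃ r : ℕ, r = Nat.sqrt (Nat.sqrt N) := ⟨_, rfl⟩
  have hrr : rr D J = r := by rw [hr, hN]; rfl
  rw [hrr]
  have hJN : J ≤ N := by rw [hN]; exact Nat.le_mul_of_pos_left _ (by omega)
  have hRr : R₀ ≤ r := by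
    rw [hr, Nat.le_sqrt, Nat.le_sqrt]
    calc R₀ * R₀ * (R₀ * R₀) = R₀ ^ 4 := by ring
      _ ≤ J := hJ
      _ ≤ N := hJN
  have hr4 : r ^ 4 ≤ N := by
    have h1 : r * r ≤ Nat.sqrt N := by rw [hr]; exact Nat.sqrt_le _
    calc r ^ 4 = (r * r) * (r * r) := by ring
      _ ≤ Nat.sqrt N * Nat.sqrt N := Nat.mul_le_mul h1 h1
      _ ≤ N := Nat.sqrt_le _
  have hr4' : N < (r + 1) ^ 4 := by
    have h1 : Nat.sqrt N < (r + 1) * (r + 1) := by rw [hr]; exact Nat.lt_succ_sqrt _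
    have h2 : N < (Nat.sqrt N + 1) * (Nat.sqrt N + 1) := Nat.lt_succ_sqrt N
    calc N < (Nat.sqrt N + 1) * (Nat.sqrt N + 1) := h2
      _ ≤ ((r + 1) * (r + 1)) * ((r + 1) * (r + 1)) := Nat.mul_le_mul h1 h1
      _ = (r + 1) ^ 4 := by ring
  have hr27 : 27 ≤ r := by omega
  have hpow : (r + 1) ^ 4 ≤ 16 * r ^ 4 := by
    calc (r + 1) ^ 4 ≤ (2 * r) ^ 4 := Nat.pow_le_pow_left (by omega) 4
      _ = 16 * r ^ 4 := by ring
  have hC₁N : C₁ * N ≤ r ^ 5 := by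
    calc C₁ * N ≤ C₁ * (16 * r ^ 4) := Nat.mul_le_mul_left _ (hr4'.le.trans hpow)
      _ = (16 * C₁) * r ^ 4 := by ring
      _ ≤ r * r ^ 4 := Nat.mul_le_mul_right _ (by omega)
      _ = r ^ 5 := by ring
  have hNr5 : N ≤ r ^ 5 := by
    calc N ≤ 16 * r ^ 4 := hr4'.le.trans hpow
      _ ≤ r * r ^ 4 := Nat.mul_le_mul_right _ (by omega)
      _ = r ^ 5 := by ring
  have hrR : (27 : ℝ) ≤ r := by exact_mod_cast hr27
  have hJ27 : 27 ≤ J := by
    calc 27 ≤ R₀ := by omega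
      _ ≤ R₀ ^ 4 := Nat.le_self_pow (by omega) _
      _ ≤ J := hJ
  have hJR : (27 : ℝ) ≤ J := by exact_mod_cast hJ27
  have hlogr : 1 ≤ Real.log r := by
    rw [Real.le_log_iff_exp_le (by linarith)]
    have := Real.exp_one_lt_d9
    linarith
  have hlogJ : 1 ≤ Real.log J := by
    rw [Real.le_log_iff_exp_le (by linarith)]
    have := Real.exp_one_lt_d9
    linarith
  obtain ⟨y, hy⟩ : ∃ y : ℝ, y = 5 * Real.log r := ⟨_, rfl⟩
  have hy5 : 5 ≤ y := by linarith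
  have hlogy : 0 ≤ Real.log y := Real.log_nonneg (by linarith)
  have hlogk : ∀ k : ℕ, 1 ≤ k → k ≤ r ^ 5 → Real.log k ≤ y := by
    intro k hk1 hk
    have h1 : Real.log k ≤ Real.log ((r ^ 5 : ℕ) : ℝ) :=
      Real.log_le_log (by exact_mod_cast hk1) (by exact_mod_cast hk)
    rw [Nat.cast_pow, Real.log_pow] at h1
    rw [hy]
    exact_mod_cast h1
  have hlogJy : Real.log J ≤ y := hlogk J (by omega) (hJN.trans hNr5)
  set I := Nat.log (Λ + 1) r with hI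
  have hr0 : r ≠ 0 := by omega
  have hpowI : (Λ + 1) ^ I ≤ r := Nat.pow_log_le_self _ hr0
  have hyI : r * (Λ + 1) ^ I ≤ r ^ 2 := by
    rw [pow_two]
    exact Nat.mul_le_mul_left _ hpowI
  have hb1 : (1 : ℝ) < b := by exact_mod_cast (by omega : 1 < b)
  set Bad := badSetR b β H' R Λ r I N with hBadDef
  have hBad : Bad.card * D₀ ≤ 6 * N := hr₁ r (by omega) H' R N hr4
  -- the estimate of one correlation
  have hcorr : ∀ n m : ℕ, n < N → n ∉ Bad → r ^ 3 ≤ n → m + r ^ 3 ≤ n →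
      E ⌊c₀ * n⌋₊ (h * S n m) ≤ 1 / Real.log J ^ 2 := by
    intro n m hn hnb hn3 hm3
    have hr3 : 1 ≤ r ^ 3 := Nat.one_le_pow _ _ (by omega)
    have hmn : m < n := by omega
    have herr : |(|(h : ℝ) * S n m * q| / (H' * R n * β ^ n) - 1)| ≤
        K * (n + 1) * θ ^ (n - m) := by
      have h1 : |(h : ℝ) * S n m * q| / (H' * R n * β ^ n) = |S n m| / (H * R n * β ^ n) := by
        rw [abs_mul, abs_mul, abs_of_pos (by linarith : (0 : ℝ) < h),
          abs_of_pos (by linarith : (0 : ℝ) < q), hH']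
        field_simp
      rw [h1]
      exact hS n m hmn
    obtain ⟨κ, hκ1, hκ2, hκ3, hκ6, hκ4, hκ5⟩ := hr₂ r (by omega) n m ((h : ℝ) * S n m * q) hn3
      (by omega) hm3 herr
    obtain ⟨F, hF1, hF2⟩ := exists_changesR b hb β H' ((h : ℝ) * S n m * q) hH'0 R κ n Λ r I
      hΛ1 (by omega) (hR1 n) (by
        calc R n ≤ n + 1 := hR2 n
          _ ≤ r ^ 5 := by omega
          _ ≤ 4 ^ r := pow_five_le r hr27
          _ = 2 ^ (2 * r) := by rw [pow_mul]; norm_num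
          _ ≤ b ^ (2 * r) := Nat.pow_le_pow_left hb _) hκ1 hκ2 (by omega) (by
        refine hκ5.trans ?_
        apply div_le_div_of_nonneg_left (by norm_num) (by positivity)
        apply pow_le_pow_right₀ hb1.le
        exact Nat.mul_le_mul_left _ hyI)
    have hFcard : I ≤ 2 * F.card := by
      have h1 := hF2 ((range I).filter (fun i => n ∈ ZR b β H' R Λ (r * (Λ + 1) ^ i)))
        (fun i hi h => Finset.mem_filter.2 ⟨hi, h⟩)
      have h2 : ¬ I ≤ 2 * ((range I).filter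
          (fun i => n ∈ ZR b β H' R Λ (r * (Λ + 1) ^ i))).card := by
        intro h3
        apply hnb
        rw [hBadDef, badSetR, Finset.mem_filter, Finset.mem_range]
        exact ⟨hn, h3⟩
      omega
    have hrr2 : r ≤ r ^ 2 := Nat.le_self_pow (by omega) _
    have hFk : ∀ k ∈ F, r ≤ k := by
      intro k hk
      have := (hF1 k hk).1
      omega
    have hFm : ∀ k ∈ F, ⌊c₀ * n⌋₊ ≤ k := by
      intro k hk
      have := (hF1 k hk).1
      omega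
    have hFN : ∀ k ∈ F, k ≤ r ^ 5 := by
      intro k hk
      calc k ≤ κ := (hF1 k hk).2.1
        _ ≤ C₁ * n := hκ4
        _ ≤ C₁ * N := Nat.mul_le_mul_left _ hn.le
        _ ≤ r ^ 5 := hC₁N
    have hFp : ∀ k ∈ F, 0 ≤ p k := by
      intro k hk
      have h1 := hFk k hk
      have h2 := hk₁ k (by omega) (Real.log k) le_rfl
      linarith
    have hFp2 : ∀ k ∈ F, 40 * L / κ₀ * (Real.log y / y) ≤ p k := by
      intro k hk
      have h1 := hFk k hk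
      exact hk₀ k (by omega) y (hlogk k (by omega) (hFN k hk))
    have h1 := hE ⌊c₀ * n⌋₊ (h * S n m) F hFm hFp (fun k hk => (hF1 k hk).2.2)
    refine h1.trans ?_
    have h2 : (F.card : ℝ) * (40 * L / κ₀ * (Real.log y / y)) ≤ ∑ k ∈ F, p k := by
      rw [← nsmul_eq_mul]
      exact Finset.card_nsmul_le_sum _ _ _ hFp2
    have h3 := log_le_natLog Λ r hΛ1 (by omega)
    rw [← hL, ← hI] at h3
    have h4 : (I : ℝ) ≤ 2 * F.card := by exact_mod_cast hFcard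
    have h5 : Real.log r ≤ 4 * L * F.card := by
      have := mul_le_mul_of_nonneg_left h4 (by positivity : (0 : ℝ) ≤ 2 * L)
      linarith
    have h6 : 2 * Real.log y ≤ κ₀ * ∑ k ∈ F, p k := by
      have h7 : κ₀ * ((F.card : ℝ) * (40 * L / κ₀ * (Real.log y / y))) =
          (4 * L * F.card) * (2 * Real.log y) / Real.log r := by
        rw [hy]
        field_simp
        ring
      have h8 : 2 * Real.log y ≤ (4 * L * F.card) * (2 * Real.log y) / Real.log r := by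
        rw [le_div_iff₀ (by linarith)]
        have := mul_le_mul_of_nonneg_left h5 (by linarith : 0 ≤ 2 * Real.log y)
        linarith
      have h9 := mul_le_mul_of_nonneg_left h2 hκ₀.le
      linarith
    calc Real.exp (-(κ₀ * ∑ k ∈ F, p k)) ≤ Real.exp (-(2 * Real.log y)) :=
          Real.exp_le_exp.2 (by linarith)
      _ = 1 / y ^ 2 := by
        rw [Real.exp_neg, one_div]
        congr 1
        rw [two_mul, Real.exp_add, Real.exp_log (by linarith)]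
        ring
      _ ≤ 1 / Real.log J ^ 2 := by
        apply one_div_le_one_div_of_le (by positivity)
        exact pow_le_pow_left₀ (by linarith) hlogJy 2
  have haN : ∀ i < J, a i < N := by
    intro i hi
    calc a i ≤ D * (i + 1) := haD i
      _ ≤ D * J := Nat.mul_le_mul_left _ hi
      _ < (D + 1) * J := Nat.mul_lt_mul_of_pos_right (Nat.lt_succ_self _) (by omega)
      _ = N := hN.symm
  have hr3J : (r : ℝ) ^ 3 * r ≤ ((D : ℝ) + 1) * J := by
    have h1 : r ^ 3 * r ≤ (D + 1) * J := by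
      calc r ^ 3 * r = r ^ 4 := by ring
        _ ≤ N := hr4
        _ = (D + 1) * J := hN
    exact_mod_cast h1
  have hinj : Function.Injective a := ha.injective
  refine ⟨(range J).filter (fun i => a i ∈ Bad) ∪ (range J).filter (fun i => a i < r ^ 3),
    ?_, ?_, ?_⟩
  · exact Finset.union_subset (Finset.filter_subset _ _) (Finset.filter_subset _ _)
  · have h2 : ((range J).filter (fun i => a i ∈ Bad)).card ≤ Bad.card := by
      apply Finset.card_le_card_of_injOn a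
      · intro i hi
        rw [Finset.mem_coe, Finset.mem_filter] at hi
        exact hi.2
      · exact hinj.injOn
    have h3 : ((range J).filter (fun i => a i < r ^ 3)).card ≤ r ^ 3 := by
      have h4 : ((range J).filter (fun i => a i < r ^ 3)).card ≤ (range (r ^ 3)).card := by
        apply Finset.card_le_card_of_injOn a
        · intro i hi
          rw [Finset.mem_coe, Finset.mem_filter] at hi
          rw [Finset.mem_coe, Finset.mem_range]
          exact hi.2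
        · exact hinj.injOn
      rwa [Finset.card_range] at h4
    have h4 : ((range J).filter (fun i => a i ∈ Bad) ∪
        (range J).filter (fun i => a i < r ^ 3)).card ≤ Bad.card + r ^ 3 :=
      (Finset.card_union_le _ _).trans (Nat.add_le_add h2 h3)
    have h5 : ((((range J).filter (fun i => a i ∈ Bad) ∪
        (range J).filter (fun i => a i < r ^ 3)).card : ℕ) : ℝ) ≤ Bad.card + (r : ℝ) ^ 3 := by
      exact_mod_cast h4
    have h6 : (Bad.card : ℝ) ≤ η / 2 * J := by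
      have h7 : (Bad.card : ℝ) * D₀ ≤ 6 * (((D : ℝ) + 1) * J) := by
        have : Bad.card * D₀ ≤ 6 * ((D + 1) * J) := by rw [← hN]; exact hBad
        exact_mod_cast this
      have h8 : 12 * ((D : ℝ) + 1) / η ≤ D₀ := by
        rw [hD₀]
        push_cast
        have := Nat.le_ceil (12 * ((D : ℝ) + 1) / η)
        linarith
      rw [div_le_iff₀ hη] at h8
      have hD₀0 : (0 : ℝ) < D₀ := by
        rw [hD₀]
        positivity
      have h9 : (Bad.card : ℝ) * D₀ ≤ (η / 2 * J) * D₀ := by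
        have hJ0 : (0 : ℝ) ≤ J := Nat.cast_nonneg _
        nlinarith
      exact le_of_mul_le_mul_right h9 hD₀0
    have h7 : (r : ℝ) ^ 3 ≤ η / 2 * J := by
      have h8 : 2 * ((D : ℝ) + 1) / η ≤ r := by
        refine (Nat.le_ceil _).trans ?_
        exact_mod_cast (by omega : ⌈2 * ((D : ℝ) + 1) / η⌉₊ ≤ r)
      rw [div_le_iff₀ hη] at h8
      have h9 : (r : ℝ) ^ 3 * r ≤ (η / 2 * J) * r := by
        have hJ0 : (0 : ℝ) ≤ J := Nat.cast_nonneg _
        nlinarith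
      exact le_of_mul_le_mul_right h9 (by linarith)
    linarith
  · intro i hi hiB
    rw [Finset.mem_union, Finset.mem_filter, Finset.mem_filter, Finset.mem_range, not_or] at hiB
    have h1 : a i ∉ Bad := fun h => hiB.1 ⟨hi, h⟩
    have h2 : r ^ 3 ≤ a i := by
      by_contra h
      exact hiB.2 ⟨hi, by omega⟩
    exact ⟨h2, fun l _ hl => hcorr _ _ (haN i hi) h1 h2 hl⟩

end Pool.Agent.Helper32.RB
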