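import Pool.Agent.Helper32.RB.Chg
import Pool.Agent.Helper32.RB.Dens

/-!
# The size of the differences, and the exceptional set
-/

namespace Pool.Agent.Helper32.RB

open Finset Filter Topology

theorem log_near (t : ℝ) (ht : |t| ≤ 1 / 2) : |Real.log (1 + t)| ≤ 2 * |t| := by
  have h1 := abs_le.1 ht
  have h0 : 0 < 1 + t := by linarith
  have h2 : Real.log (1 + t) ≤ |t| := by
    have := Real.log_le_sub_one_of_pos h0
    have h3 := le_abs_self t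
    linarith
  have h4 : -Real.log (1 + t) ≤ 2 * |t| := by
    rw [← Real.log_inv]
    have h5 := Real.log_le_sub_one_of_pos (inv_pos.2 h0)
    have h6 : (1 + t)⁻¹ - 1 ≤ 2 * |t| := by
      rw [inv_eq_one_div, div_sub_one h0.ne', div_le_iff₀ h0]
      have h7 := neg_le_abs t
      have h8 := abs_nonneg t
      nlinarith
    linarith
  rw [abs_le]
  constructor
  · linarith
  · have := abs_nonneg t
    linarith

/-- The relative error of the main term. -/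
theorem rel_err (β γ K ρ : ℝ) (hβ : 1 < β) (hγ0 : 0 ≤ γ) (hγ : γ < β) (hρ : ρ ≠ 0)
    (v : ℕ → ℝ) (hv : ∀ n, |v n - ρ * β ^ n| ≤ K * γ ^ n) (s n m : ℕ) (hn : s ≤ n)
    (hm : m + s ≤ n) :
    |(v n - v m) / (ρ * β ^ n) - 1| ≤ 2 * (1 + K / |ρ|) * (max γ 1 / β) ^ s := by
  have hβ0 : 0 < β := by linarith
  have hρ0 : 0 < |ρ| := abs_pos.2 hρ
  have hK : 0 ≤ K := by
    have := (abs_nonneg _).trans (hv 0)
    simpa using this
  set θ : ℝ := max γ 1 / β with hθ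
  have hθ0 : 0 < θ := by positivity
  have hθ1 : θ < 1 := by
    rw [hθ, div_lt_one hβ0]
    exact max_lt hγ hβ
  have hγθ : γ ≤ θ * β := by
    rw [hθ, div_mul_cancel₀ _ hβ0.ne']
    exact le_max_left _ _
  have h1θ : 1 ≤ θ * β := by
    rw [hθ, div_mul_cancel₀ _ hβ0.ne']
    exact le_max_right _ _
  have hβn : 0 < β ^ n := pow_pos hβ0 n
  have hne : ρ * β ^ n ≠ 0 := mul_ne_zero hρ hβn.ne'
  have h1 : |(v n - ρ * β ^ n) / (ρ * β ^ n)| ≤ (1 + K / |ρ|) * θ ^ s := by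
    rw [abs_div, abs_mul, abs_of_pos hβn, div_le_iff₀ (by positivity)]
    calc |v n - ρ * β ^ n| ≤ K * γ ^ n := hv n
      _ ≤ K * (θ * β) ^ n := by gcongr
      _ = K * θ ^ n * β ^ n := by rw [mul_pow]; ring
      _ ≤ K * θ ^ s * β ^ n := by
        have : θ ^ n ≤ θ ^ s := pow_le_pow_of_le_one hθ0.le hθ1.le hn
        gcongr
      _ ≤ (|ρ| + K) * θ ^ s * β ^ n := by
        have : 0 ≤ θ ^ s * β ^ n := by positivity
        nlinarith
      _ = (1 + K / |ρ|) * θ ^ s * (|ρ| * β ^ n) := by field_simp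
  have h2 : |v m / (ρ * β ^ n)| ≤ (1 + K / |ρ|) * θ ^ s := by
    have h3 : |v m| ≤ (|ρ| + K) * β ^ m := by
      have h4 : |v m| ≤ |v m - ρ * β ^ m| + |ρ * β ^ m| := by
        have := abs_add_le (v m - ρ * β ^ m) (ρ * β ^ m)
        rwa [sub_add_cancel] at this
      have h5 : |ρ * β ^ m| = |ρ| * β ^ m := by rw [abs_mul, abs_of_pos (pow_pos hβ0 m)]
      have h6 : K * γ ^ m ≤ K * β ^ m := by gcongr
      have h7 := hv m
      rw [h5] at h4
      linarith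
    rw [abs_div, abs_mul, abs_of_pos hβn, div_le_iff₀ (by positivity)]
    have h8 : β ^ m ≤ θ ^ s * β ^ n := by
      have h9 : β ^ n = β ^ m * β ^ s * β ^ (n - (m + s)) := by
        rw [← pow_add, ← pow_add]
        congr 1
        omega
      have h10 : 1 ≤ β ^ (n - (m + s)) := one_le_pow₀ hβ.le
      have h11 : 1 ≤ (θ * β) ^ s := one_le_pow₀ h1θ
      rw [h9]
      calc β ^ m = β ^ m * 1 * 1 := by ring
        _ ≤ β ^ m * (θ * β) ^ s * β ^ (n - (m + s)) := by gcongr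
        _ = θ ^ s * (β ^ m * β ^ s * β ^ (n - (m + s))) := by rw [mul_pow]; ring
    calc |v m| ≤ (|ρ| + K) * β ^ m := h3
      _ ≤ (|ρ| + K) * (θ ^ s * β ^ n) := by gcongr
      _ = (1 + K / |ρ|) * θ ^ s * (|ρ| * β ^ n) := by field_simp
  have h3 : (v n - v m) / (ρ * β ^ n) - 1 =
      (v n - ρ * β ^ n) / (ρ * β ^ n) - v m / (ρ * β ^ n) := by
    field_simp
    ring
  rw [h3]
  refine (abs_sub _ _).trans ?_
  linarith

theorem size (b : ℕ) (hb : 2 ≤ b) (β γ K ρ : ℝ) (hβ : 1 < β) (hγ0 : 0 ≤ γ) (hγ : γ < β)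
    (hρ : ρ ≠ 0) (v : ℕ → ℝ) (hv : ∀ n, |v n - ρ * β ^ n| ≤ K * γ ^ n) (h q : ℕ) (hh : 1 ≤ h)
    (hq : 1 ≤ q) (Λ : ℕ) :
    ∃ r₀ C₁ : ℕ, ∀ r : ℕ, r₀ ≤ r → ∀ n m : ℕ, r ^ 3 ≤ n → m + r ^ 3 ≤ n → ∃ κ : ℕ,
      (b : ℝ) ^ κ ≤ |(h : ℝ) * (v n - v m) * q| ∧ |(h : ℝ) * (v n - v m) * q| < (b : ℝ) ^ (κ + 1) ∧
      2 * r ^ 2 ≤ κ ∧ κ ≤ C₁ * n ∧
      |Real.log |(h : ℝ) * (v n - v m) * q| - (Real.log (h * q * |ρ|) + n * Real.log β)| ≤
        1 / 2 / (b : ℝ) ^ (Λ * r ^ 2) := by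
  have hβ0 : 0 < β := by linarith
  have hρ0 : 0 < |ρ| := abs_pos.2 hρ
  have hb0 : (0 : ℝ) < b := by exact_mod_cast (by omega : 0 < b)
  have hb1 : (1 : ℝ) < b := by exact_mod_cast (by omega : 1 < b)
  have hlb : 0 < Real.log b := Real.log_pos hb1
  have hlβ : 0 < Real.log β := Real.log_pos hβ
  have hK : 0 ≤ K := by
    have := (abs_nonneg _).trans (hv 0)
    simpa using this
  have hhR : (1 : ℝ) ≤ h := by exact_mod_cast hh
  have hqR : (1 : ℝ) ≤ q := by exact_mod_cast hq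
  obtain ⟨θ, hθ⟩ : ∃ θ : ℝ, θ = max γ 1 / β := ⟨_, rfl⟩
  have hθ0 : 0 < θ := by rw [hθ]; positivity
  have hθ1 : θ < 1 := by
    rw [hθ, div_lt_one hβ0]
    exact max_lt hγ hβ
  obtain ⟨c, hc⟩ : ∃ c : ℝ, c = -Real.log θ := ⟨_, rfl⟩
  have hc0 : 0 < c := by rw [hc]; have := Real.log_neg hθ0 hθ1; linarith
  obtain ⟨K', hK'⟩ : ∃ K' : ℝ, K' = 8 * (1 + K / |ρ|) := ⟨_, rfl⟩
  have hK'1 : 8 ≤ K' := by
    rw [hK']
    have : 0 ≤ K / |ρ| := by positivity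
    linarith
  obtain ⟨H, hH⟩ : ∃ H : ℝ, H = h * q * |ρ| := ⟨_, rfl⟩
  have hH0 : 0 < H := by rw [hH]; positivity
  refine ⟨⌈(Λ * Real.log b + Real.log K') / c⌉₊ + ⌈(3 * Real.log b + |Real.log H| + 1) / Real.log β⌉₊
    + 1, ⌈(|Real.log H| + 1 + Real.log β) / Real.log b⌉₊, ?_⟩
  intro r hr n m hn hm
  have hr1 : 1 ≤ r := by omega
  have hrR : (1 : ℝ) ≤ r := by exact_mod_cast hr1
  have hrA : Λ * Real.log b + Real.log K' ≤ c * r := by
    have h1 : (Λ * Real.log b + Real.log K') / c ≤ r := by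
      refine (Nat.le_ceil _).trans ?_
      exact_mod_cast (by omega : ⌈(Λ * Real.log b + Real.log K') / c⌉₊ ≤ r)
    rw [div_le_iff₀ hc0] at h1
    linarith
  have hrB : 3 * Real.log b + |Real.log H| + 1 ≤ Real.log β * r := by
    have h1 : (3 * Real.log b + |Real.log H| + 1) / Real.log β ≤ r := by
      refine (Nat.le_ceil _).trans ?_
      exact_mod_cast (by omega : ⌈(3 * Real.log b + |Real.log H| + 1) / Real.log β⌉₊ ≤ r)
    rw [div_le_iff₀ hlβ] at h1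
    linarith
  have hr2 : (1 : ℝ) ≤ (r : ℝ) ^ 2 := one_le_pow₀ hrR
  -- the relative error
  have herr := rel_err β γ K ρ hβ hγ0 hγ hρ v hv (r ^ 3) n m hn hm
  rw [← hθ] at herr
  obtain ⟨t, ht⟩ : ∃ t : ℝ, t = (v n - v m) / (ρ * β ^ n) - 1 := ⟨_, rfl⟩
  rw [← ht] at herr
  have hβn : 0 < β ^ n := pow_pos hβ0 n
  have hne : ρ * β ^ n ≠ 0 := mul_ne_zero hρ hβn.ne'
  have hsmall : 4 * (2 * (1 + K / |ρ|) * θ ^ (r ^ 3)) ≤ 1 / (b : ℝ) ^ (Λ * r ^ 2) := by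
    have h1 : 4 * (2 * (1 + K / |ρ|) * θ ^ (r ^ 3)) =
        Real.exp (Real.log K' - c * (r : ℝ) ^ 3) := by
      rw [sub_eq_add_neg, Real.exp_add, Real.exp_log (by linarith), hc]
      have : -(-Real.log θ * (r : ℝ) ^ 3) = ((r ^ 3 : ℕ) : ℝ) * Real.log θ := by push_cast; ring
      rw [this, ← Real.log_pow, Real.exp_log (by positivity), hK']
      ring
    have h2 : 1 / (b : ℝ) ^ (Λ * r ^ 2) = Real.exp (-(Λ * (r : ℝ) ^ 2 * Real.log b)) := by
      rw [Real.exp_neg, one_div]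
      congr 1
      have : (Λ : ℝ) * (r : ℝ) ^ 2 * Real.log b = ((Λ * r ^ 2 : ℕ) : ℝ) * Real.log b := by
        push_cast; ring
      rw [this, ← Real.log_pow, Real.exp_log (by positivity)]
    rw [h1, h2]
    apply Real.exp_le_exp.2
    have h3 : (r : ℝ) ^ 2 * (Λ * Real.log b + Real.log K') ≤ (r : ℝ) ^ 2 * (c * r) :=
      mul_le_mul_of_nonneg_left hrA (by positivity)
    have h4 : Real.log K' ≤ (r : ℝ) ^ 2 * Real.log K' :=
      le_mul_of_one_le_left (Real.log_nonneg (by linarith)) hr2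
    have h5 : (r : ℝ) ^ 2 * (c * r) = c * (r : ℝ) ^ 3 := by ring
    linarith
  have hbpow : 1 / (b : ℝ) ^ (Λ * r ^ 2) ≤ 1 := by
    rw [div_le_one (by positivity)]
    exact one_le_pow₀ hb1.le
  have ht4 : |t| ≤ 1 / 4 := by linarith
  have hT : (h : ℝ) * (v n - v m) * q = (h * q) * (ρ * β ^ n) * (1 + t) := by
    rw [ht]
    field_simp
    ring
  have habs : |(h : ℝ) * (v n - v m) * q| = H * β ^ n * (1 + t) := by
    rw [hT, abs_mul, abs_mul ((h : ℝ) * q), abs_mul ρ, abs_of_pos hβn,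
      abs_of_pos (by positivity : (0 : ℝ) < h * q),
      abs_of_pos (by have := abs_le.1 ht4; linarith : 0 < 1 + t), hH]
    ring
  have ht1 := abs_le.1 ht4
  have h1t : 0 < 1 + t := by linarith
  have hlogT : Real.log |(h : ℝ) * (v n - v m) * q| =
      Real.log H + n * Real.log β + Real.log (1 + t) := by
    rw [habs, Real.log_mul (by positivity) h1t.ne', Real.log_mul hH0.ne' hβn.ne', Real.log_pow]
  have hlt := log_near t (by linarith)
  have hlt1 : |Real.log (1 + t)| ≤ 1 / 2 := by linarith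
  have hlt2 := abs_le.1 hlt1
  have hHabs := abs_le.1 (le_refl |Real.log H|)
  have hTpos : 0 < |(h : ℝ) * (v n - v m) * q| := by rw [habs]; positivity
  -- the size
  have hn3 : (r : ℝ) ^ 3 ≤ n := by exact_mod_cast hn
  have hlow : (2 * (r : ℝ) ^ 2 + 1) * Real.log b ≤ Real.log |(h : ℝ) * (v n - v m) * q| := by
    rw [hlogT]
    have h1 : (r : ℝ) ^ 3 * Real.log β ≤ n * Real.log β := by gcongr
    have h2 : (r : ℝ) ^ 2 * (3 * Real.log b + |Real.log H| + 1) ≤ (r : ℝ) ^ 2 * (Real.log β * r) :=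
      mul_le_mul_of_nonneg_left hrB (by positivity)
    have h3 : (|Real.log H| + 1) ≤ (r : ℝ) ^ 2 * (|Real.log H| + 1) :=
      le_mul_of_one_le_left (by positivity) hr2
    have h4 : Real.log b ≤ (r : ℝ) ^ 2 * Real.log b := le_mul_of_one_le_left hlb.le hr2
    nlinarith
  have hge : (b : ℝ) ^ (2 * r ^ 2 + 1) ≤ |(h : ℝ) * (v n - v m) * q| := by
    rw [← Real.log_le_log_iff (by positivity) hTpos, Real.log_pow]
    push_cast
    exact hlow
  have hfl : b ^ (2 * r ^ 2 + 1) ≤ ⌊|(h : ℝ) * (v n - v m) * q|⌋₊ := by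
    apply Nat.le_floor
    push_cast
    exact hge
  have hfl0 : ⌊|(h : ℝ) * (v n - v m) * q|⌋₊ ≠ 0 := by
    have : 0 < b ^ (2 * r ^ 2 + 1) := by positivity
    omega
  refine ⟨Nat.log b ⌊|(h : ℝ) * (v n - v m) * q|⌋₊, ?_, ?_, ?_, ?_, ?_⟩
  · have h1 := Nat.pow_log_le_self b hfl0
    calc ((b : ℝ) ^ Nat.log b ⌊|(h : ℝ) * (v n - v m) * q|⌋₊) =
          ((b ^ Nat.log b ⌊|(h : ℝ) * (v n - v m) * q|⌋₊ : ℕ) : ℝ) := by push_cast; rfl
      _ ≤ ((⌊|(h : ℝ) * (v n - v m) * q|⌋₊ : ℕ) : ℝ) := by exact_mod_cast h1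
      _ ≤ _ := Nat.floor_le (abs_nonneg _)
  · have h1 := Nat.lt_pow_succ_log_self (by omega : 1 < b) ⌊|(h : ℝ) * (v n - v m) * q|⌋₊
    have h2 : ((⌊|(h : ℝ) * (v n - v m) * q|⌋₊ + 1 : ℕ) : ℝ) ≤
        (b : ℝ) ^ (Nat.log b ⌊|(h : ℝ) * (v n - v m) * q|⌋₊ + 1) := by exact_mod_cast h1
    refine lt_of_lt_of_le (Nat.lt_floor_add_one _) ?_
    push_cast at h2 ⊢
    exact h2
  · have h1 : 2 * r ^ 2 + 1 ≤ Nat.log b ⌊|(h : ℝ) * (v n - v m) * q|⌋₊ :=
      Nat.le_log_of_pow_le (by omega) hfl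
    omega
  · have h1 := Nat.pow_log_le_self b hfl0
    have h2 : (b : ℝ) ^ Nat.log b ⌊|(h : ℝ) * (v n - v m) * q|⌋₊ ≤
        |(h : ℝ) * (v n - v m) * q| := by
      calc ((b : ℝ) ^ Nat.log b ⌊|(h : ℝ) * (v n - v m) * q|⌋₊) =
            ((b ^ Nat.log b ⌊|(h : ℝ) * (v n - v m) * q|⌋₊ : ℕ) : ℝ) := by push_cast; rfl
        _ ≤ ((⌊|(h : ℝ) * (v n - v m) * q|⌋₊ : ℕ) : ℝ) := by exact_mod_cast h1
        _ ≤ _ := Nat.floor_le (abs_nonneg _)
    rw [← Real.log_le_log_iff (by positivity) hTpos, Real.log_pow, hlogT] at h2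
    have hn1 : (1 : ℝ) ≤ n := by
      have : (1 : ℝ) ≤ (r : ℝ) ^ 3 := one_le_pow₀ hrR
      linarith
    have h3 : (Nat.log b ⌊|(h : ℝ) * (v n - v m) * q|⌋₊ : ℝ) * Real.log b ≤
        n * (|Real.log H| + 1 + Real.log β) := by
      have h4 : |Real.log H| + 1 ≤ n * (|Real.log H| + 1) :=
        le_mul_of_one_le_left (by positivity) hn1
      nlinarith
    have h5 : (Nat.log b ⌊|(h : ℝ) * (v n - v m) * q|⌋₊ : ℝ) ≤
        (⌈(|Real.log H| + 1 + Real.log β) / Real.log b⌉₊ : ℝ) * n := by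
      calc (Nat.log b ⌊|(h : ℝ) * (v n - v m) * q|⌋₊ : ℝ) ≤
            n * (|Real.log H| + 1 + Real.log β) / Real.log b := by
            rw [le_div_iff₀ hlb]
            exact h3
        _ = (|Real.log H| + 1 + Real.log β) / Real.log b * n := by ring
        _ ≤ _ := by
          gcongr
          exact Nat.le_ceil _
    exact_mod_cast h5
  · rw [← hH, hlogT]
    have h1 : Real.log H + n * Real.log β + Real.log (1 + t) - (Real.log H + n * Real.log β) =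
        Real.log (1 + t) := by ring
    rw [h1]
    have h2 : 1 / 2 / (b : ℝ) ^ (Λ * r ^ 2) = 1 / 2 * (1 / (b : ℝ) ^ (Λ * r ^ 2)) := by ring
    rw [h2]
    linarith

end Pool.Agent.Helper32.RB
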